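import Mathlib

set_option autoImplicit false

/-!
# The Kleitman–Winston count for tuples
-/

namespace Pool.Agent.H40KO

open Finset

section

variable {X : Type} [Fintype X] (R : X → X → Prop)

/-- tuples of elements of `C` without related pairs -/
noncomputable def tup (C : Finset X) (k : ℕ) : Finset (Fin k → X) := by
  classical exact univ.filter fun z => (∀ a, z a ∈ C) ∧ ∀ a b, a ≠ b → ¬ R (z a) (z b)

lemma mem_tup (C : Finset X) (k : ℕ) (z : Fin k → X) :
    z ∈ tup R C k ↔ (∀ a, z a ∈ C) ∧ ∀ a b, a ≠ b → ¬ R (z a) (z b) := by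
  unfold tup; simp

lemma tup_card_le (C : Finset X) (k : ℕ) : (tup R C k).card ≤ C.card ^ k := by
  classical
  have h : tup R C k ⊆ Fintype.piFinset (fun _ : Fin k => C) := by
    intro z hz
    rw [mem_tup] at hz
    rw [Fintype.mem_piFinset]
    exact hz.1
  refine (Finset.card_le_card h).trans (le_of_eq ?_)
  rw [Fintype.card_piFinset]
  simp

lemma tup_rec [DecidableEq X] [DecidableRel R] (C : Finset X) (u : X) (k : ℕ) :
    (tup R C (k + 1)).card ≤ (tup R (C.erase u) (k + 1)).card +
      (k + 1) * (tup R (C.filter fun y => ¬ R u y) k).card := by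
  have hsub : tup R C (k + 1) ⊆ tup R (C.erase u) (k + 1) ∪
      (univ : Finset (Fin (k + 1))).biUnion (fun a =>
        (tup R (C.filter fun y => ¬ R u y) k).image (fun z' => (Fin.insertNth a u z' : Fin (k + 1) → X))) := by
    intro z hz
    rw [mem_tup] at hz
    rw [Finset.mem_union]
    by_cases h : ∃ a, z a = u
    · right
      obtain ⟨a, ha⟩ := h
      rw [Finset.mem_biUnion]
      refine ⟨a, Finset.mem_univ _, ?_⟩
      rw [Finset.mem_image]
      refine ⟨fun b => z (a.succAbove b), ?_, ?_⟩
      · rw [mem_tup]
        refine ⟨?_, ?_⟩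
        · intro b
          rw [Finset.mem_filter]
          refine ⟨hz.1 _, ?_⟩
          rw [← ha]
          exact hz.2 _ _ (Fin.succAbove_ne a b).symm
        · intro b c hbc
          exact hz.2 _ _ (fun h => hbc (Fin.succAbove_right_injective h))
      · rw [← ha]
        exact Fin.insertNth_self_removeNth a z
    · left
      push Not at h
      rw [mem_tup]
      exact ⟨fun a => Finset.mem_erase.2 ⟨h a, hz.1 a⟩, hz.2⟩
  refine (Finset.card_le_card hsub).trans ((Finset.card_union_le _ _).trans ?_)
  apply Nat.add_le_add_left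
  refine Finset.card_biUnion_le.trans ?_
  calc ∑ a : Fin (k + 1), ((tup R (C.filter fun y => ¬ R u y) k).image
        (fun z' => (Fin.insertNth a u z' : Fin (k + 1) → X))).card
      ≤ ∑ _a : Fin (k + 1), (tup R (C.filter fun y => ¬ R u y) k).card :=
        Finset.sum_le_sum fun a _ => Finset.card_image_le
    _ = _ := by simp

theorem kw [DecidableEq X] [DecidableRel R] (M0 D : ℝ) (hM0 : 0 < M0) (hD : 1 ≤ D)
    (hdeg : ∀ C : Finset X, M0 ≤ C.card → ∃ u ∈ C, (C.card : ℝ) ≤ D * (C.filter (R u)).card) :
    ∀ (m : ℕ) (C : Finset X), C.card = m → ∀ k L : ℕ, (C.card : ℝ) * (1 - 1 / D) ^ L ≤ M0 →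
      ((tup R C k).card : ℝ) ≤ M0 ^ k * (1 + k * C.card / M0) ^ L := by
  have hD0 : 0 < D := by linarith
  have hq0 : 0 ≤ 1 - 1 / D := by
    rw [sub_nonneg, div_le_one hD0]; exact hD
  intro m
  induction m using Nat.strong_induction_on with
  | _ m ih =>
    intro C hC k L hL
    have hc0 : (0 : ℝ) ≤ C.card := Nat.cast_nonneg _
    have hbase : (1 : ℝ) ≤ (1 + k * C.card / M0) ^ L := by
      apply one_le_pow₀
      have : (0 : ℝ) ≤ k * C.card / M0 := by positivity
      linarith
    rcases le_or_gt (C.card : ℝ) M0 with hle | hgt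
    · calc ((tup R C k).card : ℝ) ≤ (C.card : ℝ) ^ k := by exact_mod_cast tup_card_le R C k
        _ ≤ M0 ^ k := pow_le_pow_left₀ hc0 hle k
        _ ≤ _ := le_mul_of_one_le_right (by positivity) hbase
    · rcases L with _ | L
      · simp only [pow_zero, mul_one] at hL
        exact absurd hL (not_le.2 hgt)
      rcases k with _ | k
      · have h1 := tup_card_le R C 0
        rw [pow_zero] at h1 ⊢
        rw [one_mul]
        refine le_trans ?_ hbase
        exact_mod_cast h1
      obtain ⟨u, hu, hdu⟩ := hdeg C hgt.le
      have hcpos : (0 : ℝ) < C.card := hM0.trans hgt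
      have hpart : (C.filter (R u)).card + (C.filter fun y => ¬ R u y).card = C.card :=
        Finset.card_filter_add_card_filter_not _
      have hpart' : ((C.filter (R u)).card : ℝ) + (C.filter fun y => ¬ R u y).card = C.card := by
        exact_mod_cast hpart
      have hNpos : (0 : ℝ) < (C.filter (R u)).card := by
        by_contra hneg
        push Not at hneg
        have h0 : ((C.filter (R u)).card : ℝ) = 0 := le_antisymm hneg (Nat.cast_nonneg _)
        rw [h0, mul_zero] at hdu
        linarith
      have hNpos' : 0 < (C.filter (R u)).card := by exact_mod_cast hNpos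
      have hF : ((C.filter fun y => ¬ R u y).card : ℝ) ≤ C.card * (1 - 1 / D) := by
        have : (C.card : ℝ) / D ≤ (C.filter (R u)).card := by
          rw [div_le_iff₀ hD0]; linarith
        have h2 : (C.card : ℝ) * (1 - 1 / D) = C.card - C.card / D := by field_simp
        rw [h2]
        linarith
      have hFlt : (C.filter fun y => ¬ R u y).card < m := by omega
      have hElt : (C.erase u).card < m := by
        rw [Finset.card_erase_of_mem hu]
        have : 0 < C.card := Finset.card_pos.2 ⟨u, hu⟩
        omega
      have hE : ((C.erase u).card : ℝ) = C.card - 1 := by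
        rw [Finset.card_erase_of_mem hu, Nat.cast_sub (Finset.card_pos.2 ⟨u, hu⟩)]
        simp
      have ih1 := ih _ hElt (C.erase u) rfl (k + 1) (L + 1) (by
        refine le_trans ?_ hL
        apply mul_le_mul_of_nonneg_right _ (by positivity)
        rw [hE]; linarith)
      have ih2 := ih _ hFlt (C.filter fun y => ¬ R u y) rfl k L (by
        calc ((C.filter fun y => ¬ R u y).card : ℝ) * (1 - 1 / D) ^ L
            ≤ (C.card * (1 - 1 / D)) * (1 - 1 / D) ^ L :=
              mul_le_mul_of_nonneg_right hF (by positivity)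
          _ = C.card * (1 - 1 / D) ^ (L + 1) := by rw [pow_succ]; ring
          _ ≤ M0 := hL)
      have hrec := tup_rec R C u k
      have hrec' : ((tup R C (k + 1)).card : ℝ) ≤ (tup R (C.erase u) (k + 1)).card +
          (k + 1) * (tup R (C.filter fun y => ¬ R u y) k).card := by exact_mod_cast hrec
      refine hrec'.trans ?_
      set A : ℝ := 1 + (k + 1 : ℕ) * C.card / M0 with hA
      have hk0 : (0 : ℝ) ≤ k := Nat.cast_nonneg k
      have hA1 : 1 ≤ A := by
        rw [hA]
        have : (0 : ℝ) ≤ (k + 1 : ℕ) * C.card / M0 := by positivity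
        linarith
      have hc1 : (1 : ℝ) ≤ C.card := by exact_mod_cast Finset.card_pos.2 ⟨u, hu⟩
      have hA' : 1 + (k + 1 : ℕ) * (C.card - 1) / M0 = A - (k + 1) / M0 := by
        rw [hA]; push_cast; field_simp; ring
      have hA'0 : 0 ≤ A - (k + 1) / M0 := by
        rw [← hA']
        have : (0 : ℝ) ≤ (k + 1 : ℕ) * (C.card - 1) / M0 := by
          apply div_nonneg _ hM0.le
          apply mul_nonneg (Nat.cast_nonneg _)
          linarith
        linarith
      have e1 : ((tup R (C.erase u) (k + 1)).card : ℝ) ≤ M0 ^ (k + 1) * (A ^ L * (A - (k + 1) / M0)) := by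
        refine ih1.trans ?_
        rw [hE, hA']
        apply mul_le_mul_of_nonneg_left _ (by positivity)
        rw [pow_succ]
        apply mul_le_mul_of_nonneg_right _ hA'0
        apply pow_le_pow_left₀ hA'0
        have : 0 ≤ ((k : ℝ) + 1) / M0 := by positivity
        linarith
      have e2 : ((tup R (C.filter fun y => ¬ R u y) k).card : ℝ) ≤ M0 ^ k * A ^ L := by
        refine ih2.trans ?_
        apply mul_le_mul_of_nonneg_left _ (by positivity)
        apply pow_le_pow_left₀ (by positivity)
        rw [hA]
        have h3 : ((C.filter fun y => ¬ R u y).card : ℝ) ≤ C.card := by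
          linarith
        have h4 : (k : ℝ) * (C.filter fun y => ¬ R u y).card / M0 ≤ (k + 1 : ℕ) * C.card / M0 := by
          apply div_le_div_of_nonneg_right _ hM0.le
          apply mul_le_mul _ h3 (Nat.cast_nonneg _) (Nat.cast_nonneg _)
          push_cast; linarith
        linarith
      calc ((tup R (C.erase u) (k + 1)).card : ℝ) + (k + 1) * (tup R (C.filter fun y => ¬ R u y) k).card
          ≤ M0 ^ (k + 1) * (A ^ L * (A - (k + 1) / M0)) + (k + 1) * (M0 ^ k * A ^ L) := by
            have := mul_le_mul_of_nonneg_left e2 (by positivity : (0 : ℝ) ≤ k + 1)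
            linarith
        _ = M0 ^ (k + 1) * A ^ (L + 1) := by
            rw [pow_succ, pow_succ]
            field_simp
            ring

end

end Pool.Agent.H40KO
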