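import Pool.Agent.H40.KO.Super
import Pool.Agent.H40.KO.KW

set_option autoImplicit false

/-!
# The number of `k`-tuples of sign vectors without orthogonal pairs
-/

namespace Pool.Agent.H40KO

open Finset

lemma cb_sq (n : ℕ) (hn : 1 ≤ n) : (16 : ℝ) ^ n ≤ 4 * n * (Nat.centralBinom n : ℝ) ^ 2 := by
  induction n, hn using Nat.le_induction with
  | base => simp [Nat.centralBinom]; norm_num [Nat.choose]
  | succ n hn ih =>
    have h := Nat.succ_mul_centralBinom_succ n
    have h' : ((n : ℝ) + 1) * Nat.centralBinom (n + 1) = 2 * (2 * n + 1) * Nat.centralBinom n := by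
      exact_mod_cast h
    have hn0 : (0 : ℝ) < n := by exact_mod_cast hn
    have h1 : (Nat.centralBinom (n + 1) : ℝ) = 2 * (2 * n + 1) * Nat.centralBinom n / (n + 1) := by
      field_simp; linarith
    rw [h1, pow_succ]
    have h2 : 4 * ((n + 1 : ℕ) : ℝ) * (2 * (2 * n + 1) * (Nat.centralBinom n : ℝ) / (n + 1)) ^ 2 =
        (4 * n * (Nat.centralBinom n : ℝ) ^ 2) * (4 * (2 * n + 1) ^ 2 / (n * (n + 1))) := by
      push_cast; field_simp; ring
    rw [h2]
    have h3 : (16 : ℝ) ≤ 4 * (2 * n + 1) ^ 2 / (n * (n + 1)) := by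
      rw [le_div_iff₀ (by positivity)]
      nlinarith
    calc (16 : ℝ) ^ n * 16 ≤ (4 * n * (Nat.centralBinom n : ℝ) ^ 2) * 16 :=
          mul_le_mul_of_nonneg_right ih (by norm_num)
      _ ≤ _ := mul_le_mul_of_nonneg_left h3 (by positivity)

lemma Zs_card (n : ℕ) : (Zs (2 * n)).card = Nat.centralBinom n := by
  have hmem : ∀ z : Cube (2 * n), z ∈ Zs (2 * n) ↔ (univ.filter fun i => z i = true).card = n := by
    intro z
    rw [Zs, Finset.mem_filter]
    have h1 : ∑ i, sg (z i) = ((2 * n : ℕ) : ℝ) - 2 * (univ.filter fun i => z i = true).card := by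
      have : ∀ i, sg (z i) = 1 - 2 * (if z i = true then 1 else 0) := by
        intro i
        unfold sg
        split_ifs <;> norm_num
      simp_rw [this]
      rw [Finset.sum_sub_distrib, ← Finset.mul_sum, Finset.sum_boole]
      simp
    rw [h1]
    constructor
    · rintro ⟨_, h⟩
      push_cast at h
      have : ((univ.filter fun i => z i = true).card : ℝ) = n := by linarith
      exact_mod_cast this
    · intro h
      refine ⟨Finset.mem_univ _, ?_⟩
      rw [h]; push_cast; ring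
  rw [Nat.centralBinom_eq_two_mul_choose]
  have : (Finset.powersetCard n (univ : Finset (Fin (2 * n)))).card = Nat.choose (2 * n) n := by
    rw [Finset.card_powersetCard]; simp
  rw [← this]
  refine Finset.card_bij' (fun z _ => univ.filter fun i => z i = true)
    (fun S _ => fun i => decide (i ∈ S)) ?_ ?_ ?_ ?_
  · intro z hz
    rw [Finset.mem_powersetCard]
    exact ⟨Finset.subset_univ _, (hmem z).1 hz⟩
  · intro S hS
    rw [Finset.mem_powersetCard] at hS
    rw [hmem]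
    simp [hS.2]
  · intro z _
    funext i
    simp
  · intro S _
    ext i
    simp

lemma Zs_lower {t r : ℕ} (hr : r = 1024 * t ^ 2) (ht : 1 ≤ t) :
    (2 : ℝ) ^ r ≤ 46 * t * (Zs r).card := by
  have hr2 : r = 2 * (512 * t ^ 2) := by rw [hr]; ring
  have hc := cb_sq (512 * t ^ 2) (by nlinarith)
  have hZ : (Zs r).card = Nat.centralBinom (512 * t ^ 2) := by rw [hr2]; exact Zs_card _
  rw [hZ]
  have h1 : (16 : ℝ) ^ (512 * t ^ 2) = ((2 : ℝ) ^ r) ^ 2 := by
    rw [hr2, ← pow_mul, show (16 : ℝ) = 2 ^ 4 by norm_num, ← pow_mul]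
    congr 1
    ring
  rw [h1] at hc
  apply le_of_sq_le_sq _ (by positivity)
  refine hc.trans ?_
  push_cast
  have h0 : (0 : ℝ) ≤ t ^ 2 * (Nat.centralBinom (512 * t ^ 2) : ℝ) ^ 2 := by positivity
  nlinarith

lemma exists_deg {t r : ℕ} (hr : r = 1024 * t ^ 2) (ht : 1 ≤ t) (U : Finset (Cube r))
    (hU : Real.exp (-(t : ℝ)) * 2 ^ r ≤ U.card) :
    ∃ u ∈ U, (U.card : ℝ) ≤ (92 * t) * (U.filter (Orth u)).card := by
  have hs := super hr ht U hU
  have hZ := Zs_lower hr ht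
  have h2 : (0 : ℝ) < 2 ^ r := by positivity
  have hUpos : (0 : ℝ) < U.card := lt_of_lt_of_le (by positivity) hU
  have hN : NU U = ∑ x ∈ U, ((U.filter (Orth x)).card : ℝ) := by
    unfold NU
    refine Finset.sum_congr rfl fun x _ => ?_
    rw [Finset.sum_boole]
  have hmain : (U.card : ℝ) ^ 2 ≤ 92 * t * NU U := by
    have hNn : 0 ≤ NU U := by
      rw [hN]; exact Finset.sum_nonneg fun x _ => Nat.cast_nonneg _
    have h3 : (2 : ℝ) ^ r * U.card ^ 2 ≤ 46 * t * (2 * 2 ^ r * NU U) := by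
      calc (2 : ℝ) ^ r * U.card ^ 2 ≤ 46 * t * (Zs r).card * U.card ^ 2 :=
            mul_le_mul_of_nonneg_right hZ (sq_nonneg _)
        _ = 46 * t * ((Zs r).card * U.card ^ 2) := by ring
        _ ≤ _ := mul_le_mul_of_nonneg_left hs (by positivity)
    have h4 : (2 : ℝ) ^ r * U.card ^ 2 ≤ 2 ^ r * (92 * t * NU U) := by
      refine h3.trans (le_of_eq ?_); ring
    exact le_of_mul_le_mul_left h4 h2
  by_contra hcon
  push Not at hcon
  have hne : U.Nonempty := Finset.card_pos.1 (by exact_mod_cast hUpos)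
  have h5 : ∑ x ∈ U, (92 * t) * ((U.filter (Orth x)).card : ℝ) < ∑ x ∈ U, (U.card : ℝ) :=
    Finset.sum_lt_sum_of_nonempty hne hcon
  rw [← Finset.mul_sum, ← hN, Finset.sum_const, nsmul_eq_mul] at h5
  nlinarith

lemma t_bound (t : ℕ) (ht : 12 ≤ t) : 736 * (t : ℝ) ^ 2 ≤ Real.exp t := by
  induction t, ht using Nat.le_induction with
  | base =>
    have h : Real.exp ((12 : ℕ) : ℝ) = Real.exp 1 ^ 12 := by
      rw [← Real.exp_nat_mul]; norm_num
    rw [h]
    have h2 := Real.exp_one_gt_d9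
    calc (736 : ℝ) * ((12 : ℕ) : ℝ) ^ 2 ≤ 2.7182818283 ^ 12 := by norm_num
      _ ≤ Real.exp 1 ^ 12 := pow_le_pow_left₀ (by norm_num) h2.le 12
  | succ t ht ih =>
    push_cast
    rw [Real.exp_add]
    have h2 := Real.exp_one_gt_d9
    have ht' : (12 : ℝ) ≤ t := by exact_mod_cast ht
    have h3 : 736 * ((t : ℝ) + 1) ^ 2 ≤ 736 * (t : ℝ) ^ 2 * 2 := by nlinarith
    calc 736 * ((t : ℝ) + 1) ^ 2 ≤ 736 * (t : ℝ) ^ 2 * 2 := h3
      _ ≤ Real.exp t * Real.exp 1 := mul_le_mul ih (by linarith) (by norm_num) (Real.exp_pos _).le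

/-- the final count -/
theorem count {t r : ℕ} (hr : r = 1024 * t ^ 2) (ht : 12 ≤ t) :
    ((tup (Orth (r := r)) univ (368 * t ^ 2)).card : ℝ) ≤
      (2 ^ r) ^ (368 * t ^ 2) * Real.exp (-(184 * t ^ 3 : ℝ)) := by
  have ht1 : 1 ≤ t := by omega
  have ht0 : (0 : ℝ) < t := by exact_mod_cast ht1
  have ht12 : (12 : ℝ) ≤ t := by exact_mod_cast ht
  have h2 : (0 : ℝ) < 2 ^ r := by positivity
  set M0 : ℝ := Real.exp (-(t : ℝ)) * 2 ^ r with hM0
  have hM0p : 0 < M0 := by positivity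
  have hcard : ((univ : Finset (Cube r)).card : ℝ) = 2 ^ r := by
    simp
  have h := kw (Orth (r := r)) M0 (92 * t) hM0p (by linarith)
    (fun C hC => exists_deg hr ht1 C hC) _ univ rfl (368 * t ^ 2) (92 * t ^ 2) (by
      rw [hcard, hM0, mul_comm]
      apply mul_le_mul_of_nonneg_right _ h2.le
      have h1 : 1 - 1 / (92 * (t : ℝ)) ≤ Real.exp (-(1 / (92 * (t : ℝ)))) := by
        have := Real.add_one_le_exp (-(1 / (92 * (t : ℝ))))
        linarith
      have h0 : 0 ≤ 1 - 1 / (92 * (t : ℝ)) := by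
        rw [sub_nonneg, div_le_one (by positivity)]; linarith
      calc (1 - 1 / (92 * (t : ℝ))) ^ (92 * t ^ 2)
          ≤ (Real.exp (-(1 / (92 * (t : ℝ))))) ^ (92 * t ^ 2) := pow_le_pow_left₀ h0 h1 _
        _ = Real.exp (-(t : ℝ)) := by
            rw [← Real.exp_nat_mul]
            congr 1
            push_cast
            field_simp)
  rw [hcard] at h
  refine h.trans ?_
  have hk : (1 + ((368 * t ^ 2 : ℕ) : ℝ) * 2 ^ r / M0) ≤ Real.exp (2 * t) := by
    have e1 : ((368 * t ^ 2 : ℕ) : ℝ) * 2 ^ r / M0 = 368 * t ^ 2 * Real.exp t := by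
      rw [hM0, Real.exp_neg]
      push_cast
      field_simp
    rw [e1]
    have hb := t_bound t ht
    have he1 : 1 ≤ Real.exp (t : ℝ) := Real.one_le_exp ht0.le
    have e2 : Real.exp (2 * (t : ℝ)) = Real.exp t * Real.exp t := by rw [← Real.exp_add]; ring_nf
    rw [e2]
    nlinarith
  have h0 : (0 : ℝ) ≤ 1 + ((368 * t ^ 2 : ℕ) : ℝ) * 2 ^ r / M0 := by positivity
  calc M0 ^ (368 * t ^ 2) * (1 + ((368 * t ^ 2 : ℕ) : ℝ) * 2 ^ r / M0) ^ (92 * t ^ 2)
      ≤ M0 ^ (368 * t ^ 2) * (Real.exp (2 * t)) ^ (92 * t ^ 2) :=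
        mul_le_mul_of_nonneg_left (pow_le_pow_left₀ h0 hk _) (by positivity)
    _ = _ := by
        rw [hM0, mul_pow, ← Real.exp_nat_mul, ← Real.exp_nat_mul]
        have : Real.exp (((368 * t ^ 2 : ℕ) : ℝ) * -(t : ℝ)) * (2 ^ r) ^ (368 * t ^ 2) *
            Real.exp (((92 * t ^ 2 : ℕ) : ℝ) * (2 * t)) =
            (2 ^ r) ^ (368 * t ^ 2) * (Real.exp (((368 * t ^ 2 : ℕ) : ℝ) * -(t : ℝ)) *
            Real.exp (((92 * t ^ 2 : ℕ) : ℝ) * (2 * t))) := by ring
        rw [this, ← Real.exp_add]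
        congr 2
        push_cast
        ring

end Pool.Agent.H40KO
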