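import Pool.Agent.H40.KO.Vec

set_option autoImplicit false

/-!
# The bound `f (n, k) ≥ n ^ (1 - 50 log k / √k)`
-/

namespace Pool.Agent.H40KO

open Finset

lemma small_case (k n : ℕ) (hk : 2 ≤ k) (hn : 1 ≤ n) :
    ∃ (d : ℕ) (v : Fin n → EuclideanSpace ℝ (Fin d)), (∀ i, ‖v i‖ = 1) ∧
      (∀ K : Finset (Fin n), K.card = k → ∃ i ∈ K, ∃ j ∈ K, i ≠ j ∧ inner ℝ (v i) (v j) = 0) ∧
      1 ≤ ‖∑ i, v i‖ := by
  refine ⟨n, fun i => EuclideanSpace.single i (1 : ℝ), ?_, ?_, ?_⟩
  · intro i; simp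
  · intro K hK
    obtain ⟨i, hi, j, hj, hij⟩ := Finset.one_lt_card.1 (by omega : 1 < K.card)
    refine ⟨i, hi, j, hj, hij, ?_⟩
    rw [EuclideanSpace.inner_single_left]
    simp [hij]
  · let u : EuclideanSpace ℝ (Fin n) := EuclideanSpace.single (⟨0, hn⟩ : Fin n) (1 : ℝ)
    have hu : ‖u‖ = 1 := by simp [u]
    have h1 : inner ℝ (∑ i, (EuclideanSpace.single i (1 : ℝ) : EuclideanSpace ℝ (Fin n))) u = (1 : ℝ) := by
      rw [sum_inner, Finset.sum_eq_single (⟨0, hn⟩ : Fin n)]
      · simp [u]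
      · intro i _ hi
        rw [EuclideanSpace.inner_single_left]
        simp [u, hi]
      · intro h; exact absurd (Finset.mem_univ _) h
    have h2 := real_inner_le_norm (∑ i, (EuclideanSpace.single i (1 : ℝ) : EuclideanSpace ℝ (Fin n))) u
    rw [h1, hu, mul_one] at h2
    exact h2

lemma small_exp (k : ℕ) (hk : 2 ≤ k) (hk2 : k < 52992) : 1 - 50 * Real.log k / √(k : ℝ) ≤ 0 := by
  have hk0 : (0 : ℝ) < k := by positivity
  have hs : 0 < √(k : ℝ) := Real.sqrt_pos.2 hk0
  have hl2 := Real.log_two_gt_d9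
  rw [sub_nonpos, le_div_iff₀ hs, one_mul]
  rcases le_or_gt k 1024 with h | h
  · have h1 : √(k : ℝ) ≤ 32 := by
      rw [Real.sqrt_le_left (by norm_num)]
      have : (k : ℝ) ≤ 1024 := by exact_mod_cast h
      linarith
    have h2 : Real.log 2 ≤ Real.log k := Real.log_le_log (by norm_num) (by exact_mod_cast hk)
    linarith
  · have h1 : √(k : ℝ) ≤ 231 := by
      rw [Real.sqrt_le_left (by norm_num)]
      have : (k : ℝ) ≤ 52992 := by exact_mod_cast hk2.le
      linarith
    have h2 : 10 * Real.log 2 ≤ Real.log k := by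
      have : (10 : ℝ) * Real.log 2 = Real.log (2 ^ 10) := by rw [Real.log_pow]; norm_num
      rw [this]
      apply Real.log_le_log (by norm_num)
      have : (1024 : ℝ) ≤ k := by exact_mod_cast h.le
      linarith
    linarith

theorem main (k n : ℕ) (hk : 2 ≤ k) (hn : Real.exp (√(k : ℝ)) ≤ n) :
    ∃ (d : ℕ) (v : Fin n → EuclideanSpace ℝ (Fin d)), (∀ i, ‖v i‖ = 1) ∧
      (∀ K : Finset (Fin n), K.card = k → ∃ i ∈ K, ∃ j ∈ K, i ≠ j ∧ inner ℝ (v i) (v j) = 0) ∧
      (n : ℝ) ^ (1 - 50 * Real.log k / √(k : ℝ)) ≤ ‖∑ i, v i‖ := by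
  have hk0 : (0 : ℝ) < k := by positivity
  have hs : 0 < √(k : ℝ) := Real.sqrt_pos.2 hk0
  have hn1 : (1 : ℝ) < n := lt_of_lt_of_le (Real.one_lt_exp_iff.2 hs) hn
  have hn1' : 1 ≤ n := by exact_mod_cast hn1.le
  rcases lt_or_ge k 52992 with hsmall | hbig
  · obtain ⟨d, v, h1, h2, h3⟩ := small_case k n hk hn1'
    refine ⟨d, v, h1, h2, le_trans ?_ h3⟩
    exact Real.rpow_le_one_of_one_le_of_nonpos hn1.le (small_exp k hk hsmall)
  · set t := Nat.sqrt (k / 368) with ht
    have ht1 : t ^ 2 ≤ k / 368 := by rw [ht]; exact Nat.sqrt_le' _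
    have ht2 : k / 368 < (t + 1) ^ 2 := by rw [ht]; exact Nat.lt_succ_sqrt' _
    have ht12 : 12 ≤ t := by
      rw [ht, Nat.le_sqrt]
      omega
    have hk1 : 368 * t ^ 2 ≤ k := by omega
    have hk2 : k < 368 * (t + 1) ^ 2 := by omega
    have ht12' : (12 : ℝ) ≤ t := by exact_mod_cast ht12
    have ht0 : (0 : ℝ) < t := by linarith
    have hk1' : 368 * (t : ℝ) ^ 2 ≤ k := by exact_mod_cast hk1
    have hk2' : (k : ℝ) < 368 * ((t : ℝ) + 1) ^ 2 := by exact_mod_cast hk2
    set s := √(k : ℝ) with hsdef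
    have hs2 : s ^ 2 = k := Real.sq_sqrt hk0.le
    have hst : s < 20.8 * t := by
      apply lt_of_pow_lt_pow_left₀ 2 (by positivity)
      rw [hs2]
      nlinarith
    set r := 1024 * t ^ 2 with hr
    have hr0 : 0 < r := by rw [hr]; positivity
    set L := Real.log n with hL
    have hLs : s ≤ L := by
      rw [hL, Real.le_log_iff_exp_le (by linarith)]; exact hn
    have hL0 : 0 < L := hs.trans_le hLs
    set l := ⌊2 * L / t⌋₊ + 1 with hl
    have hl1 : 2 * L / t < l := by rw [hl]; push_cast; exact Nat.lt_floor_add_one _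
    have hl2 : (l : ℝ) ≤ 2 * L / t + 1 := by
      rw [hl]; push_cast
      have := Nat.floor_le (show 0 ≤ 2 * L / t by positivity)
      linarith
    have hcount := count hr ht12
    have hcond : n ^ (368 * t ^ 2) * (tup (Orth (r := r)) univ (368 * t ^ 2)).card ^ l <
        ((Fintype.card (Cube r)) ^ l) ^ (368 * t ^ 2) := by
      have hreal : (n : ℝ) ^ (368 * t ^ 2) * ((tup (Orth (r := r)) univ (368 * t ^ 2)).card : ℝ) ^ l <
          ((2 ^ r) ^ l) ^ (368 * t ^ 2) := by
        have h1 : ((tup (Orth (r := r)) univ (368 * t ^ 2)).card : ℝ) ^ l ≤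
            ((2 ^ r) ^ (368 * t ^ 2) * Real.exp (-(184 * t ^ 3 : ℝ))) ^ l :=
          pow_le_pow_left₀ (Nat.cast_nonneg _) hcount l
        have h2 : ((2 : ℝ) ^ r) ^ (368 * t ^ 2) * Real.exp (-(184 * t ^ 3 : ℝ)) ^ 1 =
            (2 ^ r) ^ (368 * t ^ 2) * Real.exp (-(184 * t ^ 3 : ℝ)) := by rw [pow_one]
        have hnexp : (n : ℝ) ^ (368 * t ^ 2) = Real.exp (368 * t ^ 2 * L) := by
          rw [hL, ← Real.exp_log (by linarith : (0 : ℝ) < n), ← Real.exp_nat_mul, Real.exp_log (by linarith)]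
          push_cast
          ring_nf
        have hpw : ((2 ^ r : ℝ) ^ (368 * t ^ 2) * Real.exp (-(184 * t ^ 3 : ℝ))) ^ l =
            ((2 ^ r) ^ l) ^ (368 * t ^ 2) * Real.exp (-(184 * t ^ 3 * l : ℝ)) := by
          rw [mul_pow, ← Real.exp_nat_mul]
          congr 1
          · exact pow_right_comm _ _ _
          · congr 1; ring
        have hlt : Real.exp (368 * t ^ 2 * L) * Real.exp (-(184 * t ^ 3 * l : ℝ)) < 1 := by
          rw [← Real.exp_add, Real.exp_lt_one_iff]
          have h3 : 2 * L < t * l := by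
            rw [div_lt_iff₀ ht0] at hl1; linarith
          have h4 : 0 < 184 * (t : ℝ) ^ 2 := by positivity
          nlinarith
        calc (n : ℝ) ^ (368 * t ^ 2) * ((tup (Orth (r := r)) univ (368 * t ^ 2)).card : ℝ) ^ l
            ≤ Real.exp (368 * t ^ 2 * L) *
              (((2 ^ r) ^ l) ^ (368 * t ^ 2) * Real.exp (-(184 * t ^ 3 * l : ℝ))) := by
              rw [hnexp, ← hpw]
              exact mul_le_mul_of_nonneg_left h1 (Real.exp_pos _).le
          _ = ((2 ^ r) ^ l) ^ (368 * t ^ 2) *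
              (Real.exp (368 * t ^ 2 * L) * Real.exp (-(184 * t ^ 3 * l : ℝ))) := by ring
          _ < ((2 ^ r) ^ l) ^ (368 * t ^ 2) * 1 :=
              mul_lt_mul_of_pos_left hlt (by positivity)
          _ = _ := mul_one _
      have hcard : Fintype.card (Cube r) = 2 ^ r := by simp
      rw [hcard]
      exact_mod_cast hreal
    obtain ⟨d, v, h1, h2, h3⟩ := construct hr0 n l (368 * t ^ 2) hcond
    refine ⟨d, v, h1, ?_, le_trans ?_ h3⟩
    · intro K hK
      obtain ⟨K', hK', hKc⟩ := Finset.exists_subset_card_eq (show 368 * t ^ 2 ≤ K.card by omega)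
      obtain ⟨i, hi, j, hj, hij, hin⟩ := h2 K' hKc
      exact ⟨i, hK' hi, j, hK' hj, hij, hin⟩
    · have hsr : √(r : ℝ) = 32 * t := by
        rw [hr]
        push_cast
        rw [show (1024 : ℝ) * t ^ 2 = (32 * t) ^ 2 by ring]
        exact Real.sqrt_sq (by positivity)
      have h32 : (0 : ℝ) < 32 * t := by positivity
      have hlog32 : 0 ≤ Real.log (32 * t) := Real.log_nonneg (by linarith)
      have hlogk : Real.log (32 * t) ≤ Real.log k := by
        apply Real.log_le_log h32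
        nlinarith
      have hR : (n : ℝ) * (1 / √(r : ℝ)) ^ l = Real.exp (L - l * Real.log (32 * t)) := by
        rw [hsr, Real.exp_sub, hL, Real.exp_log (by linarith), one_div, inv_pow, ← div_eq_mul_inv,
          Real.exp_nat_mul, Real.exp_log h32]
      have hLft : (n : ℝ) ^ (1 - 50 * Real.log k / s) = Real.exp (L * (1 - 50 * Real.log k / s)) := by
        rw [Real.rpow_def_of_pos (by linarith), hL]
      rw [hR, hLft]
      apply Real.exp_le_exp.2
      have hlogk0 : 0 ≤ Real.log k := hlog32.trans hlogk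
      have hA : (l : ℝ) * Real.log (32 * t) ≤ (2 * L / t + 1) * Real.log k :=
        mul_le_mul hl2 hlogk hlog32 (by positivity)
      have hB : 2 * L / t + 1 ≤ 50 * L / s := by
        have hb1 : 2 * L / t ≤ 41.6 * L / s := by
          rw [div_le_div_iff₀ ht0 hs]
          nlinarith
        have hb2 : 1 ≤ L / s := by rw [le_div_iff₀ hs]; linarith
        have hb3 : 41.6 * L / s + L / s ≤ 50 * L / s := by
          rw [← add_div]
          apply div_le_div_of_nonneg_right _ hs.le
          nlinarith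
        linarith
      have hC : (2 * L / t + 1) * Real.log k ≤ 50 * L / s * Real.log k :=
        mul_le_mul_of_nonneg_right hB hlogk0
      have hD : L * (1 - 50 * Real.log k / s) = L - 50 * L / s * Real.log k := by ring
      rw [hD]
      linarith

end Pool.Agent.H40KO
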