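import Pool.Agent.H40.KO.TwoPoint

set_option autoImplicit false

/-!
# Characters and noise on the cube, hypercontractivity
-/

namespace Pool.Agent.H40KO

open Finset

/-- sign of a bit -/
def sg (b : Bool) : ℝ := if b then -1 else 1

abbrev Cube (r : ℕ) := Fin r → Bool

lemma sg_mul_self (b : Bool) : sg b * sg b = 1 := by cases b <;> norm_num [sg]

lemma sg_sq (b : Bool) : sg b ^ 2 = 1 := by rw [sq, sg_mul_self]

/-- character -/
noncomputable def chi {r : ℕ} (S : Finset (Fin r)) (x : Cube r) : ℝ := ∏ i ∈ S, sg (x i)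

/-- unnormalised Fourier coefficient -/
noncomputable def coef {r : ℕ} (f : Cube r → ℝ) (S : Finset (Fin r)) : ℝ := ∑ x, f x * chi S x

/-- noise form -/
noncomputable def Bf {r : ℕ} (δ : ℝ) (f g : Cube r → ℝ) : ℝ :=
  (∑ x, ∑ y, f x * g y * ∏ i, (1 + δ * (sg (x i) * sg (y i)))) / 4 ^ r

lemma kernel_expand {r : ℕ} (δ : ℝ) (x y : Cube r) :
    ∏ i, (1 + δ * (sg (x i) * sg (y i))) =
      ∑ S : Finset (Fin r), δ ^ S.card * (chi S x * chi S y) := by
  rw [Finset.prod_one_add]
  rw [Finset.powerset_univ]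
  refine Finset.sum_congr rfl fun S _ => ?_
  rw [Finset.prod_mul_distrib, Finset.prod_const, Finset.prod_mul_distrib]
  rfl

lemma Bf_expand {r : ℕ} (δ : ℝ) (f g : Cube r → ℝ) :
    Bf δ f g = (∑ S : Finset (Fin r), δ ^ S.card * (coef f S * coef g S)) / 4 ^ r := by
  unfold Bf
  congr 1
  calc ∑ x, ∑ y, f x * g y * ∏ i, (1 + δ * (sg (x i) * sg (y i)))
      = ∑ x, ∑ y, ∑ S : Finset (Fin r), δ ^ S.card * ((f x * chi S x) * (g y * chi S y)) := by
        refine Finset.sum_congr rfl fun x _ => Finset.sum_congr rfl fun y _ => ?_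
        rw [kernel_expand, Finset.mul_sum]
        refine Finset.sum_congr rfl fun S _ => ?_
        ring
    _ = ∑ S : Finset (Fin r), ∑ x, ∑ y, δ ^ S.card * ((f x * chi S x) * (g y * chi S y)) := by
        rw [Finset.sum_comm' (t' := univ) (s' := fun _ => univ) (by simp)]
        have : ∀ x : Cube r, ∑ y, ∑ S : Finset (Fin r),
            δ ^ S.card * ((f x * chi S x) * (g y * chi S y)) =
            ∑ S : Finset (Fin r), ∑ y, δ ^ S.card * ((f x * chi S x) * (g y * chi S y)) :=
          fun x => Finset.sum_comm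
        rw [Finset.sum_comm]
        simp_rw [this]
        rw [Finset.sum_comm]
    _ = _ := by
        refine Finset.sum_congr rfl fun S _ => ?_
        unfold coef
        rw [Finset.sum_mul_sum, Finset.mul_sum]
        refine Finset.sum_congr rfl fun x _ => ?_
        rw [Finset.mul_sum]

lemma Bf_self_nonneg {r : ℕ} (δ : ℝ) (hδ : 0 ≤ δ) (f : Cube r → ℝ) : 0 ≤ Bf δ f f := by
  rw [Bf_expand]
  apply div_nonneg _ (by positivity)
  exact Finset.sum_nonneg fun S _ => mul_nonneg (pow_nonneg hδ _) (mul_self_nonneg _)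

lemma Bf_comm {r : ℕ} (δ : ℝ) (f g : Cube r → ℝ) : Bf δ f g = Bf δ g f := by
  rw [Bf_expand, Bf_expand]
  congr 1
  refine Finset.sum_congr rfl fun S _ => ?_
  ring

lemma Bf_cs {r : ℕ} (δ : ℝ) (hδ : 0 ≤ δ) (f g : Cube r → ℝ) :
    Bf δ f g ≤ √(Bf δ f f) * √(Bf δ g g) := by
  have h := Real.sum_mul_le_sqrt_mul_sqrt (univ : Finset (Finset (Fin r)))
    (fun S => √(δ ^ S.card) * coef f S) (fun S => √(δ ^ S.card) * coef g S)
  have e1 : ∀ u v : Cube r → ℝ, ∑ S : Finset (Fin r), (√(δ ^ S.card) * coef u S) * (√(δ ^ S.card) * coef v S)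
      = 4 ^ r * Bf δ u v := by
    intro u v
    rw [Bf_expand, mul_div_cancel₀ _ (by positivity)]
    refine Finset.sum_congr rfl fun S _ => ?_
    have := Real.mul_self_sqrt (pow_nonneg hδ S.card)
    calc (√(δ ^ S.card) * coef u S) * (√(δ ^ S.card) * coef v S)
        = (√(δ ^ S.card) * √(δ ^ S.card)) * (coef u S * coef v S) := by ring
      _ = _ := by rw [this]
  simp_rw [sq] at h
  rw [e1, e1, e1] at h
  have h4 : (0 : ℝ) < 4 ^ r := by positivity
  rw [Real.sqrt_mul h4.le, Real.sqrt_mul h4.le] at h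
  have h5 : √((4 : ℝ) ^ r) * √((4 : ℝ) ^ r) = 4 ^ r := Real.mul_self_sqrt h4.le
  have h6 : √((4 : ℝ) ^ r) * √(Bf δ f f) * (√((4 : ℝ) ^ r) * √(Bf δ g g)) =
      4 ^ r * (√(Bf δ f f) * √(Bf δ g g)) := by
    calc _ = (√((4 : ℝ) ^ r) * √((4 : ℝ) ^ r)) * (√(Bf δ f f) * √(Bf δ g g)) := by ring
      _ = _ := by rw [h5]
  rw [h6] at h
  exact le_of_mul_le_mul_left h h4

/-- the `p`-th mean -/
noncomputable def Mp {r : ℕ} (p : ℝ) (f : Cube r → ℝ) : ℝ := (∑ x, |f x| ^ p) / 2 ^ r

lemma Mp_nonneg {r : ℕ} (p : ℝ) (f : Cube r → ℝ) : 0 ≤ Mp p f := by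
  unfold Mp
  apply div_nonneg _ (by positivity)
  exact Finset.sum_nonneg fun x _ => Real.rpow_nonneg (abs_nonneg _) _

lemma sum_cube_succ {r : ℕ} (F : Cube (r + 1) → ℝ) :
    ∑ x, F x = ∑ x : Cube r, F (Fin.cons false x) + ∑ x : Cube r, F (Fin.cons true x) := by
  rw [← (Fin.consEquiv (fun _ : Fin (r + 1) => Bool)).sum_comp F]
  rw [Fintype.sum_prod_type]
  simp only [Fintype.univ_bool, Finset.mem_singleton, Bool.true_eq_false, not_false_eq_true,
    Finset.sum_insert, Finset.sum_singleton]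
  rw [add_comm]
  rfl

/-- the two halves of a function -/
def half {r : ℕ} (b : Bool) (f : Cube (r + 1) → ℝ) : Cube r → ℝ := fun x => f (Fin.cons b x)

lemma Bf_succ {r : ℕ} (δ : ℝ) (f : Cube (r + 1) → ℝ) :
    Bf δ f f = ((1 + δ) * (Bf δ (half false f) (half false f) + Bf δ (half true f) (half true f))
      + 2 * (1 - δ) * Bf δ (half false f) (half true f)) / 4 := by
  have hc := Bf_comm δ (half false f) (half true f)
  have hk : ∀ (b c : Bool) (x y : Cube r),
      ∏ i, (1 + δ * (sg ((Fin.cons b x : Cube (r+1)) i) * sg ((Fin.cons c y : Cube (r+1)) i))) =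
      (1 + δ * (sg b * sg c)) * ∏ i, (1 + δ * (sg (x i) * sg (y i))) := by
    intro b c x y
    rw [Fin.prod_univ_succ]
    simp
  have hs : ∀ b c : Bool, ∑ x : Cube r, ∑ y : Cube r, f (Fin.cons b x) * f (Fin.cons c y) *
      ∏ i, (1 + δ * (sg ((Fin.cons b x : Cube (r+1)) i) * sg ((Fin.cons c y : Cube (r+1)) i))) =
      (1 + δ * (sg b * sg c)) * (4 ^ r * Bf δ (half b f) (half c f)) := by
    intro b c
    unfold Bf
    rw [mul_div_cancel₀ _ (by positivity), Finset.mul_sum]
    refine Finset.sum_congr rfl fun x _ => ?_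
    rw [Finset.mul_sum]
    refine Finset.sum_congr rfl fun y _ => ?_
    rw [hk]
    unfold half
    ring
  have h4 : (4 : ℝ) ^ r ≠ 0 := by positivity
  have : (∑ x, ∑ y, f x * f y * ∏ i, (1 + δ * (sg (x i) * sg (y i)))) =
      4 ^ r * ((1 + δ) * (Bf δ (half false f) (half false f) + Bf δ (half true f) (half true f))
      + 2 * (1 - δ) * Bf δ (half false f) (half true f)) := by
    rw [sum_cube_succ]
    simp_rw [sum_cube_succ]
    rw [Finset.sum_add_distrib, Finset.sum_add_distrib, hs, hs, hs, hs, ← hc]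
    simp only [sg]
    norm_num
    ring
  conv_lhs => unfold Bf
  rw [this, pow_succ]
  field_simp

/-- hypercontractivity in the form `‖T f‖₂² ≤ ‖f‖²_{1+δ}` -/
theorem hyper (δ : ℝ) (h0 : 0 ≤ δ) (h1 : δ ≤ 1) : ∀ (r : ℕ) (f : Cube r → ℝ),
    Bf δ f f ≤ Mp (1 + δ) f ^ (2 / (1 + δ)) := by
  have hp : 0 < 1 + δ := by linarith
  intro r
  induction r with
  | zero =>
    intro f
    unfold Bf Mp
    simp only [Finset.univ_unique, Finset.sum_singleton, Finset.univ_eq_empty, Finset.prod_empty,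
      mul_one, pow_zero, div_one]
    rw [← Real.rpow_mul (abs_nonneg _)]
    have : (1 + δ) * (2 / (1 + δ)) = (2 : ℕ) := by push_cast; field_simp
    rw [this, Real.rpow_natCast, sq_abs, sq]
  | succ r ih =>
    intro f
    rw [Bf_succ]
    set a := √(Bf δ (half false f) (half false f)) with ha
    set b := √(Bf δ (half true f) (half true f)) with hb
    have ha0 : 0 ≤ a := Real.sqrt_nonneg _
    have hb0 : 0 ≤ b := Real.sqrt_nonneg _
    have ha2 : Bf δ (half false f) (half false f) = a ^ 2 := (Real.sq_sqrt (Bf_self_nonneg δ h0 _)).symm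
    have hb2 : Bf δ (half true f) (half true f) = b ^ 2 := (Real.sq_sqrt (Bf_self_nonneg δ h0 _)).symm
    have hcs := Bf_cs δ h0 (half false f) (half true f)
    rw [← ha, ← hb] at hcs
    have hstep : ((1 + δ) * (Bf δ (half false f) (half false f) + Bf δ (half true f) (half true f))
      + 2 * (1 - δ) * Bf δ (half false f) (half true f)) / 4 ≤
      ((1 + δ) * (a ^ 2 + b ^ 2) + 2 * (1 - δ) * (a * b)) / 4 := by
      rw [ha2, hb2]
      have : 2 * (1 - δ) * Bf δ (half false f) (half true f) ≤ 2 * (1 - δ) * (a * b) :=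
        mul_le_mul_of_nonneg_left hcs (by linarith)
      linarith
    refine hstep.trans ((two_point δ a b h0 h1 ha0 hb0).trans ?_)
    apply Real.rpow_le_rpow (by positivity) _ (by positivity)
    have hpow : ∀ g : Cube r → ℝ, √(Bf δ g g) ^ (1 + δ) ≤ Mp (1 + δ) g := by
      intro g
      have hM := Mp_nonneg (1 + δ) g
      have hle : √(Bf δ g g) ≤ Mp (1 + δ) g ^ (1 / (1 + δ)) := by
        apply Real.sqrt_le_iff.2
        refine ⟨Real.rpow_nonneg hM _, (ih g).trans (le_of_eq ?_)⟩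
        rw [← Real.rpow_natCast, ← Real.rpow_mul hM]
        congr 1
        push_cast
        ring
      calc √(Bf δ g g) ^ (1 + δ) ≤ (Mp (1 + δ) g ^ (1 / (1 + δ))) ^ (1 + δ) :=
            Real.rpow_le_rpow (Real.sqrt_nonneg _) hle hp.le
        _ = Mp (1 + δ) g := by
            rw [← Real.rpow_mul hM, one_div, inv_mul_cancel₀ hp.ne', Real.rpow_one]
    have hMs : Mp (1 + δ) f = (Mp (1 + δ) (half false f) + Mp (1 + δ) (half true f)) / 2 := by
      unfold Mp
      rw [sum_cube_succ]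
      unfold half
      rw [pow_succ]
      field_simp
    rw [hMs]
    have h1' := hpow (half false f)
    have h2' := hpow (half true f)
    rw [← ha] at h1'
    rw [← hb] at h2'
    linarith

end Pool.Agent.H40KO
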