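import Pool.Agent.H40.KO.Hyper

set_option autoImplicit false

/-!
# The eigenvalues of the relation distance `r / 2`
-/

namespace Pool.Agent.H40KO

open Finset

/-- balanced sign vectors -/
noncomputable def Zs (r : ℕ) : Finset (Cube r) := univ.filter fun z => ∑ i, sg (z i) = 0

noncomputable def Kr {r : ℕ} (S : Finset (Fin r)) : ℝ := ∑ z ∈ Zs r, chi S z

lemma Kr_map {r : ℕ} (S : Finset (Fin r)) (e : Equiv.Perm (Fin r)) :
    Kr (S.map e.toEmbedding) = Kr S := by
  unfold Kr Zs
  rw [Finset.sum_filter, Finset.sum_filter]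
  rw [← (e.symm.arrowCongr (Equiv.refl Bool)).sum_comp
    (fun z : Cube r => if ∑ i, sg (z i) = 0 then chi S z else 0)]
  refine Finset.sum_congr rfl fun z _ => ?_
  have h1 : ∑ i, sg ((e.symm.arrowCongr (Equiv.refl Bool)) z i) = ∑ i, sg (z i) := by
    simp only [Equiv.arrowCongr_apply, Equiv.symm_symm, Equiv.coe_refl, Function.comp_apply, id]
    exact Equiv.sum_comp e (fun i => sg (z i))
  have h2 : chi S ((e.symm.arrowCongr (Equiv.refl Bool)) z) = chi (S.map e.toEmbedding) z := by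
    unfold chi
    rw [Finset.prod_map]
    simp only [Equiv.arrowCongr_apply, Equiv.symm_symm, Equiv.coe_refl, Function.comp_apply, id]
    rfl
  rw [h1, h2]

lemma Kr_card {r : ℕ} (S T : Finset (Fin r)) (h : S.card = T.card) : Kr S = Kr T := by
  have e : {x // x ∈ S} ≃ {x // x ∈ T} := Finset.equivOfCardEq h
  let e' : Equiv.Perm (Fin r) := e.extendSubtype
  have hsub : S.map e'.toEmbedding ⊆ T := by
    intro y hy
    rw [Finset.mem_map] at hy
    obtain ⟨x, hx, rfl⟩ := hy
    exact e.extendSubtype_mem x hx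
  have heq : S.map e'.toEmbedding = T := by
    apply Finset.eq_of_subset_of_card_le hsub
    rw [Finset.card_map, h]
  rw [← heq, Kr_map]

lemma chi_erase {r : ℕ} (S : Finset (Fin r)) (i : Fin r) (hi : i ∈ S) (z : Cube r) :
    chi S z * sg (z i) = chi (S.erase i) z := by
  unfold chi
  rw [← Finset.mul_prod_erase S _ hi]
  have := sg_mul_self (z i)
  calc _ = (sg (z i) * sg (z i)) * ∏ x ∈ S.erase i, sg (z x) := by ring
    _ = _ := by rw [this, one_mul]

lemma chi_insert {r : ℕ} (S : Finset (Fin r)) (i : Fin r) (hi : i ∉ S) (z : Cube r) :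
    chi S z * sg (z i) = chi (insert i S) z := by
  unfold chi
  rw [Finset.prod_insert hi, mul_comm]

lemma Kr_rec {r : ℕ} (T : Finset (Fin r)) :
    ∑ i ∈ T, Kr (T.erase i) + ∑ i ∈ Tᶜ, Kr (insert i T) = 0 := by
  have h : ∑ z ∈ Zs r, chi T z * ∑ i, sg (z i) = 0 := by
    apply Finset.sum_eq_zero
    intro z hz
    rw [Zs, Finset.mem_filter] at hz
    rw [hz.2, mul_zero]
  rw [← h]
  have h2 : ∀ z : Cube r, chi T z * ∑ i, sg (z i) =
      ∑ i ∈ T, chi (T.erase i) z + ∑ i ∈ Tᶜ, chi (insert i T) z := by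
    intro z
    rw [Finset.mul_sum, ← Finset.sum_add_sum_compl T]
    congr 1
    · exact Finset.sum_congr rfl fun i hi => chi_erase T i hi z
    · exact Finset.sum_congr rfl fun i hi => chi_insert T i (Finset.mem_compl.1 hi) z
  simp_rw [h2]
  rw [Finset.sum_add_distrib]
  unfold Kr
  congr 1
  · rw [Finset.sum_comm]
  · rw [Finset.sum_comm]

noncomputable def kap (r j : ℕ) : ℝ := Kr (univ.filter fun i : Fin r => i.val < j)

lemma card_filter_lt (r j : ℕ) (h : j ≤ r) : (univ.filter fun i : Fin r => i.val < j).card = j := by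
  rw [Fin.card_filter_val_lt]
  exact min_eq_right h

lemma Kr_eq_kap {r : ℕ} (S : Finset (Fin r)) : Kr S = kap r S.card := by
  apply Kr_card
  rw [card_filter_lt]
  simpa using Finset.card_le_univ S

lemma kap_rec (r j : ℕ) (h : j + 2 ≤ r) :
    ((r : ℝ) - j - 1) * kap r (j + 2) = -((j : ℝ) + 1) * kap r j := by
  have hT := card_filter_lt r (j + 1) (by omega)
  set T := (univ.filter fun i : Fin r => i.val < j + 1) with hTdef
  have hrec := Kr_rec T
  have h1 : ∑ i ∈ T, Kr (T.erase i) = ((j : ℝ) + 1) * kap r j := by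
    rw [Finset.sum_congr rfl (g := fun _ => kap r j)]
    · rw [Finset.sum_const, hT]
      simp
    · intro i hi
      rw [Kr_eq_kap, Finset.card_erase_of_mem hi, hT]
      rfl
  have h2 : ∑ i ∈ Tᶜ, Kr (insert i T) = ((r : ℝ) - j - 1) * kap r (j + 2) := by
    rw [Finset.sum_congr rfl (g := fun _ => kap r (j + 2))]
    · rw [Finset.sum_const, Finset.card_compl, hT, Fintype.card_fin, nsmul_eq_mul]
      rw [Nat.cast_sub (by omega)]
      push_cast
      ring
    · intro i hi
      rw [Kr_eq_kap, Finset.card_insert_of_notMem (Finset.mem_compl.1 hi), hT]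
  rw [h1, h2] at hrec
  linarith

lemma kap_one (r : ℕ) (h : 1 ≤ r) : kap r 1 = 0 := by
  have hrec := Kr_rec (∅ : Finset (Fin r))
  have h2 : ∑ i ∈ (∅ : Finset (Fin r))ᶜ, Kr (insert i (∅ : Finset (Fin r))) = (r : ℝ) * kap r 1 := by
    rw [Finset.sum_congr rfl (g := fun _ => kap r 1)]
    · rw [Finset.sum_const, Finset.card_compl, Finset.card_empty, Fintype.card_fin, nsmul_eq_mul]
      simp
    · intro i hi
      rw [Kr_eq_kap]
      simp
  rw [h2] at hrec
  simp only [Finset.sum_empty, zero_add] at hrec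
  have : (r : ℝ) ≠ 0 := by positivity
  exact (mul_eq_zero.1 hrec).resolve_left this

lemma kap_odd (r i : ℕ) (h : 2 * i + 1 ≤ r) : kap r (2 * i + 1) = 0 := by
  induction i with
  | zero => exact kap_one r (by omega)
  | succ i ih =>
    have h1 := kap_rec r (2 * i + 1) (by omega)
    rw [ih (by omega), mul_zero] at h1
    have h2 : (r : ℝ) - (2 * i + 1 : ℕ) - 1 ≠ 0 := by
      have : ((2 * i + 3 : ℕ) : ℝ) ≤ r := by exact_mod_cast (by omega : 2 * i + 3 ≤ r)
      push_cast at this ⊢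
      intro h; linarith
    have := (mul_eq_zero.1 h1).resolve_left h2
    exact this

lemma kap_zero (r : ℕ) : kap r 0 = (Zs r).card := by
  unfold kap Kr chi
  simp

lemma kap_step (r i : ℕ) (h : 4 * i + 2 ≤ r) :
    |kap r (2 * (i + 1))| ≤ (2 * (2 * i + 1) / r) * |kap r (2 * i)| := by
  have h1 := kap_rec r (2 * i) (by omega)
  have hr : (4 * (i : ℝ) + 2) ≤ r := by exact_mod_cast h
  have hpos : (0 : ℝ) < (r : ℝ) - (2 * i : ℕ) - 1 := by push_cast; nlinarith [(Nat.cast_nonneg i : (0:ℝ) ≤ i)]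
  have hr0 : (0 : ℝ) < r := by nlinarith [(Nat.cast_nonneg i : (0:ℝ) ≤ i)]
  have h2 : |kap r (2 * i + 2)| = ((2 * i : ℕ) + 1) / ((r : ℝ) - (2 * i : ℕ) - 1) * |kap r (2 * i)| := by
    have h3 : kap r (2 * i + 2) = -(((2 * i : ℕ) + 1) / ((r : ℝ) - (2 * i : ℕ) - 1) * kap r (2 * i)) := by
      field_simp
      linarith
    rw [h3, abs_neg, abs_mul, abs_of_nonneg]
    positivity
  have he : 2 * (i + 1) = 2 * i + 2 := by ring
  rw [he, h2]
  apply mul_le_mul_of_nonneg_right _ (abs_nonneg _)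
  rw [div_le_div_iff₀ hpos hr0]
  push_cast
  have hi : (0 : ℝ) ≤ i := Nat.cast_nonneg i
  nlinarith

lemma kap_decr (r i : ℕ) (h : 4 * i + 2 ≤ r) : |kap r (2 * (i + 1))| ≤ |kap r (2 * i)| := by
  refine (kap_step r i h).trans ?_
  have hr : (4 * (i : ℝ) + 2) ≤ r := by exact_mod_cast h
  have hr0 : (0 : ℝ) < r := by nlinarith [(Nat.cast_nonneg i : (0:ℝ) ≤ i)]
  have : 2 * (2 * (i : ℝ) + 1) / r ≤ 1 := by rw [div_le_one hr0]; linarith
  calc _ ≤ 1 * |kap r (2 * i)| := mul_le_mul_of_nonneg_right this (abs_nonneg _)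
    _ = _ := one_mul _

lemma kap_bound_aux (r m : ℕ) : ∀ i, i ≤ m → 4 * i ≤ r + 2 →
    |kap r (2 * i)| ≤ (Zs r).card * (4 * m / r) ^ i := by
  intro i
  induction i with
  | zero =>
    intro _ _
    rw [mul_zero, kap_zero, pow_zero, mul_one, abs_of_nonneg (Nat.cast_nonneg _)]
  | succ i ih =>
    intro h1 h2
    refine (kap_step r i (by omega)).trans ?_
    have h3 := ih (by omega) (by omega)
    have h4 : (0 : ℝ) ≤ 2 * (2 * i + 1) / r := by positivity
    have h5 : 2 * (2 * (i : ℝ) + 1) / r ≤ 4 * m / r := by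
      apply div_le_div_of_nonneg_right _ (Nat.cast_nonneg r)
      have : ((i + 1 : ℕ) : ℝ) ≤ m := by exact_mod_cast h1
      push_cast at this
      linarith
    calc 2 * (2 * (i : ℝ) + 1) / r * |kap r (2 * i)|
        ≤ (4 * m / r) * ((Zs r).card * (4 * m / r) ^ i) :=
          mul_le_mul h5 h3 (abs_nonneg _) (h4.trans h5)
      _ = _ := by rw [pow_succ]; ring

lemma kap_bound (r i : ℕ) (h : 4 * i ≤ r + 2) : |kap r (2 * i)| ≤ (Zs r).card * (4 * i / r) ^ i :=
  kap_bound_aux r i i le_rfl h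

lemma kap_tail (r t : ℕ) : ∀ i, t ≤ i → 4 * i ≤ r + 2 →
    |kap r (2 * i)| ≤ (Zs r).card * (4 * t / r) ^ t := by
  intro i hi
  induction i, hi using Nat.le_induction with
  | base => intro h; exact kap_bound r t h
  | succ i hi ih =>
    intro h
    exact (kap_decr r i (by omega)).trans (ih (by omega))

/-- the full product of the signs of a balanced vector is one -/
lemma chi_univ_Zs {r : ℕ} (h : 4 ∣ r) (z : Cube r) (hz : z ∈ Zs r) : chi univ z = 1 := by
  rw [Zs, Finset.mem_filter] at hz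
  have h1 : ∑ i, sg (z i) = (r : ℝ) - 2 * (univ.filter fun i => z i = true).card := by
    have : ∀ i, sg (z i) = 1 - 2 * (if z i = true then 1 else 0) := by
      intro i
      unfold sg
      split_ifs <;> norm_num
    simp_rw [this]
    rw [Finset.sum_sub_distrib, ← Finset.mul_sum, Finset.sum_boole]
    simp
  have h2 : chi univ z = (-1) ^ (univ.filter fun i => z i = true).card := by
    unfold chi sg
    rw [Finset.prod_ite]
    simp
  rw [h1] at hz
  have h3 : (r : ℝ) = ((2 * (univ.filter fun i => z i = true).card : ℕ) : ℝ) := by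
    push_cast; linarith [hz.2]
  have h4 : r = 2 * (univ.filter fun i => z i = true).card := by exact_mod_cast h3
  obtain ⟨q, hq⟩ := h
  have h5 : (univ.filter fun i => z i = true).card = 2 * q := by omega
  rw [h2, h5, pow_mul]
  norm_num

lemma chi_compl {r : ℕ} (S : Finset (Fin r)) (z : Cube r) :
    chi Sᶜ z = chi S z * chi univ z := by
  unfold chi
  rw [← Finset.prod_mul_prod_compl S (fun i => sg (z i)), ← mul_assoc, ← Finset.prod_mul_distrib]
  simp [sg_mul_self]

lemma Kr_compl {r : ℕ} (h : 4 ∣ r) (S : Finset (Fin r)) : Kr Sᶜ = Kr S := by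
  unfold Kr
  refine Finset.sum_congr rfl fun z hz => ?_
  rw [chi_compl, chi_univ_Zs h z hz, mul_one]

end Pool.Agent.H40KO
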