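import Pool.Agent.H40.KO.KW

set_option autoImplicit false

/-!
# Random points of a power
-/

namespace Pool.Agent.H40KO

open Finset

section

variable {X : Type} [Fintype X] [DecidableEq X] (R : X → X → Prop)

/-- bad samples for an embedding -/
noncomputable def bad (n l k : ℕ) (e : Fin k ↪ Fin n) : Finset (Fin n → Fin l → X) := by
  classical exact univ.filter fun ω => ∀ a b, a ≠ b → ∀ i, ¬ R (ω (e a) i) (ω (e b) i)

lemma bad_card (n l k : ℕ) (e : Fin k ↪ Fin n) :
    (bad R n l k e).card ≤ (tup R univ k).card ^ l * ((Fintype.card X) ^ l) ^ (n - k) := by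
  classical
  let F : (Fin n → Fin l → X) → (Fin l → Fin k → X) × ({j : Fin n // j ∉ Set.range e} → Fin l → X) :=
    fun ω => (fun i a => ω (e a) i, fun j => ω j.1)
  have hinj : Function.Injective F := by
    intro ω ω' h
    have h1 := congrArg Prod.fst h
    have h2 := congrArg Prod.snd h
    funext j
    by_cases hj : j ∈ Set.range e
    · obtain ⟨a, rfl⟩ := hj
      funext i
      exact congrFun (congrFun h1 i) a
    · exact congrFun h2 ⟨j, hj⟩
  have hmap : ∀ ω ∈ bad R n l k e, F ω ∈
      (Fintype.piFinset (fun _ : Fin l => tup R univ k)) ×ˢ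
        (univ : Finset ({j : Fin n // j ∉ Set.range e} → Fin l → X)) := by
    intro ω hω
    unfold bad at hω
    rw [Finset.mem_filter] at hω
    rw [Finset.mem_product]
    refine ⟨?_, Finset.mem_univ _⟩
    rw [Fintype.mem_piFinset]
    intro i
    rw [mem_tup]
    exact ⟨fun a => Finset.mem_univ _, fun a b hab => hω.2 a b hab i⟩
  refine (Finset.card_le_card_of_injOn F hmap hinj.injOn).trans (le_of_eq ?_)
  rw [Finset.card_product, Fintype.card_piFinset, Finset.card_univ]
  have hc : Fintype.card {j : Fin n // j ∉ Set.range e} = n - k := by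
    rw [Fintype.card_subtype_compl, Fintype.card_fin]
    congr 1
    have : Fintype.card {x // x ∈ Set.range e} = Fintype.card (Fin k) :=
      Fintype.card_congr (Equiv.ofInjective e e.injective).symm
    rw [Fintype.card_fin] at this
    convert this
  rw [Fintype.card_fun, Fintype.card_fun, hc]
  simp

theorem sample (n l k : ℕ)
    (h : n ^ k * (tup R univ k).card ^ l < ((Fintype.card X) ^ l) ^ k) (hX : 0 < Fintype.card X) :
    ∃ ω : Fin n → Fin l → X, ∀ e : Fin k ↪ Fin n, ∃ a b, a ≠ b ∧ ∃ i, R (ω (e a) i) (ω (e b) i) := by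
  classical
  by_contra hcon
  push Not at hcon
  have hcov : (univ : Finset (Fin n → Fin l → X)) ⊆
      (univ : Finset (Fin k ↪ Fin n)).biUnion (fun e => bad R n l k e) := by
    intro ω _
    obtain ⟨e, he⟩ := hcon ω
    rw [Finset.mem_biUnion]
    refine ⟨e, Finset.mem_univ _, ?_⟩
    unfold bad
    rw [Finset.mem_filter]
    exact ⟨Finset.mem_univ _, he⟩
  have h1 := (Finset.card_le_card hcov).trans Finset.card_biUnion_le
  have h2 : ∑ e : Fin k ↪ Fin n, (bad R n l k e).card ≤
      n ^ k * ((tup R univ k).card ^ l * ((Fintype.card X) ^ l) ^ (n - k)) := by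
    calc _ ≤ ∑ _e : Fin k ↪ Fin n, (tup R univ k).card ^ l * ((Fintype.card X) ^ l) ^ (n - k) :=
          Finset.sum_le_sum fun e _ => bad_card R n l k e
      _ = (Fintype.card (Fin k ↪ Fin n)) * ((tup R univ k).card ^ l * ((Fintype.card X) ^ l) ^ (n - k)) := by
          simp
      _ ≤ _ := by
          apply Nat.mul_le_mul_right
          rw [Fintype.card_embedding_eq, Fintype.card_fin, Fintype.card_fin]
          exact Nat.descFactorial_le_pow n k
  have h3 : (univ : Finset (Fin n → Fin l → X)).card = ((Fintype.card X) ^ l) ^ n := by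
    rw [Finset.card_univ, Fintype.card_fun, Fintype.card_fun, Fintype.card_fin, Fintype.card_fin]
  rw [h3] at h1
  have h4 := h1.trans h2
  have hpos : 0 < ((Fintype.card X) ^ l) := pow_pos hX l
  rcases le_or_gt k n with hkn | hkn
  · have h5 : ((Fintype.card X) ^ l) ^ n = ((Fintype.card X) ^ l) ^ k * ((Fintype.card X) ^ l) ^ (n - k) := by
      rw [← pow_add]; congr 1; omega
    rw [h5, ← mul_assoc] at h4
    have h6 := Nat.le_of_mul_le_mul_right h4 (pow_pos hpos _)
    omega
  · -- no embeddings
    have hne : IsEmpty (Fin k ↪ Fin n) := by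
      apply Function.Embedding.isEmpty_of_card_lt
      simpa using hkn
    have ω : Fin n → Fin l → X := fun _ _ => (Fintype.card_pos_iff.1 hX).some
    obtain ⟨e, _⟩ := hcon ω
    exact hne.elim e

end

end Pool.Agent.H40KO
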