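import Pool.Agent.H40.KO.Kraw

set_option autoImplicit false

/-!
# Supersaturation: every set of density at least `exp (-t)` in the cube of dimension `1024 t²`
contains at least the expected number of orthogonal pairs, up to a factor two
-/

namespace Pool.Agent.H40KO

open Finset

/-- orthogonality of two sign vectors -/
def Orth {r : ℕ} (x y : Cube r) : Prop := ∑ i, sg (x i) * sg (y i) = 0

noncomputable instance {r : ℕ} (x y : Cube r) : Decidable (Orth x y) := Classical.dec _

lemma sum_chi_chi {r : ℕ} (z w : Cube r) :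
    ∑ S : Finset (Fin r), chi S z * chi S w = if z = w then 2 ^ r else 0 := by
  have h := kernel_expand 1 z w
  simp only [one_pow, one_mul] at h
  rw [← h]
  split_ifs with hzw
  · subst hzw
    rw [Finset.prod_congr rfl (g := fun _ => (2 : ℝ))]
    · simp
    · intro i _
      rw [sg_mul_self]; norm_num
  · have : ∃ i, z i ≠ w i := Function.ne_iff.1 hzw
    obtain ⟨i, hi⟩ := this
    apply Finset.prod_eq_zero (Finset.mem_univ i)
    rcases hz : z i with _ | _ <;> rcases hw : w i with _ | _
    · exact absurd (hz.trans hw.symm) hi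
    · norm_num [sg]
    · norm_num [sg]
    · exact absurd (hz.trans hw.symm) hi

lemma parseval {r : ℕ} (f : Cube r → ℝ) :
    ∑ S : Finset (Fin r), coef f S ^ 2 = 2 ^ r * ∑ x, f x ^ 2 := by
  calc ∑ S : Finset (Fin r), coef f S ^ 2
      = ∑ S : Finset (Fin r), ∑ x, ∑ y, (f x * f y) * (chi S x * chi S y) := by
        refine Finset.sum_congr rfl fun S _ => ?_
        unfold coef
        rw [sq, Finset.sum_mul_sum]
        refine Finset.sum_congr rfl fun x _ => Finset.sum_congr rfl fun y _ => ?_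
        ring
    _ = ∑ x, ∑ y, (f x * f y) * ∑ S : Finset (Fin r), (chi S x * chi S y) := by
        rw [Finset.sum_comm]
        refine Finset.sum_congr rfl fun x _ => ?_
        rw [Finset.sum_comm]
        refine Finset.sum_congr rfl fun y _ => ?_
        rw [Finset.mul_sum]
    _ = _ := by
        simp_rw [sum_chi_chi]
        rw [Finset.mul_sum]
        refine Finset.sum_congr rfl fun x _ => ?_
        simp
        ring

/-- coordinatewise product of sign vectors -/
def xr {r : ℕ} (x y : Cube r) : Cube r := fun i => xor (x i) (y i)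

lemma sg_xor (a b : Bool) : sg (xor a b) = sg a * sg b := by
  cases a <;> cases b <;> norm_num [sg]

lemma chi_xr {r : ℕ} (S : Finset (Fin r)) (x y : Cube r) : chi S (xr x y) = chi S x * chi S y := by
  unfold chi xr
  rw [← Finset.prod_mul_distrib]
  exact Finset.prod_congr rfl fun i _ => sg_xor _ _

lemma xr_mem {r : ℕ} (x y : Cube r) : xr x y ∈ Zs r ↔ Orth x y := by
  unfold Zs Orth xr
  simp [sg_xor]

lemma K_inv {r : ℕ} (x y : Cube r) :
    ∑ S : Finset (Fin r), Kr S * (chi S x * chi S y) = if Orth x y then 2 ^ r else 0 := by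
  calc ∑ S : Finset (Fin r), Kr S * (chi S x * chi S y)
      = ∑ S : Finset (Fin r), ∑ z ∈ Zs r, chi S z * chi S (xr x y) := by
        refine Finset.sum_congr rfl fun S _ => ?_
        unfold Kr
        rw [Finset.sum_mul, chi_xr]
    _ = ∑ z ∈ Zs r, ∑ S : Finset (Fin r), chi S z * chi S (xr x y) := Finset.sum_comm
    _ = _ := by
        simp_rw [sum_chi_chi]
        rw [Finset.sum_ite_eq']
        simp only [xr_mem]

/-- the number of orthogonal pairs -/
noncomputable def NU {r : ℕ} (U : Finset (Cube r)) : ℝ :=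
  ∑ x ∈ U, ∑ y ∈ U, if Orth x y then 1 else 0

noncomputable def ind {r : ℕ} (U : Finset (Cube r)) (x : Cube r) : ℝ := if x ∈ U then 1 else 0

lemma NU_eq {r : ℕ} (U : Finset (Cube r)) :
    2 ^ r * NU U = ∑ S : Finset (Fin r), Kr S * coef (ind U) S ^ 2 := by
  have h1 : ∀ S : Finset (Fin r), coef (ind U) S = ∑ x ∈ U, chi S x := by
    intro S
    unfold coef ind
    simp [Finset.sum_ite_mem]
  calc 2 ^ r * NU U = ∑ x ∈ U, ∑ y ∈ U, ∑ S : Finset (Fin r), Kr S * (chi S x * chi S y) := by
        unfold NU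
        rw [Finset.mul_sum]
        refine Finset.sum_congr rfl fun x _ => ?_
        rw [Finset.mul_sum]
        refine Finset.sum_congr rfl fun y _ => ?_
        rw [K_inv]
        split_ifs <;> simp
    _ = ∑ S : Finset (Fin r), ∑ x ∈ U, ∑ y ∈ U, Kr S * (chi S x * chi S y) := by
        rw [Finset.sum_congr rfl (fun x _ => Finset.sum_comm), Finset.sum_comm]
    _ = _ := by
        refine Finset.sum_congr rfl fun S _ => ?_
        rw [h1, sq, Finset.sum_mul_sum, Finset.mul_sum]
        refine Finset.sum_congr rfl fun x _ => ?_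
        rw [Finset.mul_sum]


lemma exp_two_lt : Real.exp 2 < 8 := by
  have h : Real.exp 2 = Real.exp 1 * Real.exp 1 := by rw [← Real.exp_add]; norm_num
  rw [h]
  have := Real.exp_one_lt_d9
  have h0 := Real.exp_pos 1
  nlinarith

/-- level inequality -/
lemma level {t : ℕ} (ht : 1 ≤ t) {r : ℕ} (U : Finset (Cube r)) (f : Cube r → ℝ)
    (hf1 : ∀ x ∈ U, |f x| = 1) (hf0 : ∀ x, x ∉ U → f x = 0)
    (hU : Real.exp (-(t : ℝ)) * 2 ^ r ≤ U.card) (i : ℕ) (hi1 : 1 ≤ i) (hit : i ≤ t) :
    ∑ S ∈ (univ : Finset (Finset (Fin r))).filter (fun S => S.card = 2 * i), coef f S ^ 2 ≤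
      ((t : ℝ) / i) ^ (2 * i) * (U.card ^ 2 * Real.exp (2 * i)) := by
  have ht0 : (0 : ℝ) < t := by exact_mod_cast ht
  have hi0 : (0 : ℝ) < i := by exact_mod_cast hi1
  set δ : ℝ := (i : ℝ) / t with hδ
  have hδ0 : 0 < δ := div_pos hi0 ht0
  have hδ1 : δ ≤ 1 := by rw [hδ, div_le_one ht0]; exact_mod_cast hit
  set μ : ℝ := (U.card : ℝ) / 2 ^ r with hμ
  have h2r : (0 : ℝ) < 2 ^ r := by positivity
  have hμe : Real.exp (-(t : ℝ)) ≤ μ := by rw [hμ, le_div_iff₀ h2r]; exact hU
  have hμ0 : 0 < μ := (Real.exp_pos _).trans_le hμe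
  have hM : Mp (1 + δ) f = μ := by
    unfold Mp
    rw [hμ]
    congr 1
    rw [← Finset.sum_subset (Finset.subset_univ U)]
    · rw [Finset.sum_congr rfl (g := fun _ => (1 : ℝ))]
      · simp
      · intro x hx; rw [hf1 x hx, Real.one_rpow]
    · intro x _ hx
      rw [hf0 x hx, abs_zero, Real.zero_rpow (by linarith)]
  have hB := hyper δ hδ0.le hδ1 r f
  rw [hM] at hB
  have hpow : μ ^ (2 / (1 + δ)) ≤ μ ^ 2 * Real.exp (2 * i) := by
    have h1 : μ ^ (2 / (1 + δ)) = μ ^ 2 * μ ^ (-(2 * δ / (1 + δ))) := by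
      rw [← Real.rpow_natCast, ← Real.rpow_add hμ0]
      congr 1
      push_cast
      field_simp
      ring
    rw [h1]
    apply mul_le_mul_of_nonneg_left _ (sq_nonneg _)
    have hneg : -(2 * δ / (1 + δ)) ≤ 0 := by
      rw [neg_nonpos]; positivity
    calc μ ^ (-(2 * δ / (1 + δ))) ≤ (Real.exp (-(t : ℝ))) ^ (-(2 * δ / (1 + δ))) :=
          Real.rpow_le_rpow_of_nonpos (Real.exp_pos _) hμe hneg
      _ = Real.exp (t * (2 * δ / (1 + δ))) := by
          rw [← Real.exp_mul]; congr 1; ring
      _ ≤ Real.exp (2 * i) := by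
          apply Real.exp_le_exp.2
          have h3 : 2 * δ / (1 + δ) ≤ 2 * δ := div_le_self (by positivity) (by linarith)
          calc t * (2 * δ / (1 + δ)) ≤ t * (2 * δ) := mul_le_mul_of_nonneg_left h3 ht0.le
            _ = 2 * i := by rw [hδ]; field_simp
  have hexp := Bf_expand δ f f
  have hle : δ ^ (2 * i) * ∑ S ∈ (univ : Finset (Finset (Fin r))).filter (fun S => S.card = 2 * i),
      coef f S ^ 2 ≤ 4 ^ r * Bf δ f f := by
    rw [hexp, mul_div_cancel₀ _ (by positivity), Finset.mul_sum]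
    calc ∑ S ∈ (univ : Finset (Finset (Fin r))).filter (fun S => S.card = 2 * i),
          δ ^ (2 * i) * coef f S ^ 2
        = ∑ S ∈ (univ : Finset (Finset (Fin r))).filter (fun S => S.card = 2 * i),
          δ ^ S.card * (coef f S * coef f S) := by
          refine Finset.sum_congr rfl fun S hS => ?_
          rw [(Finset.mem_filter.1 hS).2, sq]
      _ ≤ _ := by
          apply Finset.sum_le_sum_of_subset_of_nonneg (Finset.subset_univ _)
          intro S _ _
          exact mul_nonneg (pow_nonneg hδ0.le _) (mul_self_nonneg _)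
  have h4 : (4 : ℝ) ^ r * μ ^ 2 = U.card ^ 2 := by
    have h44 : ((2 : ℝ) ^ r) ^ 2 = 4 ^ r := by rw [← pow_mul, mul_comm r 2, pow_mul]; norm_num
    rw [hμ, div_pow, h44]
    field_simp
  have hfin : δ ^ (2 * i) * ∑ S ∈ (univ : Finset (Finset (Fin r))).filter (fun S => S.card = 2 * i),
      coef f S ^ 2 ≤ U.card ^ 2 * Real.exp (2 * i) := by
    refine hle.trans ?_
    calc (4 : ℝ) ^ r * Bf δ f f ≤ 4 ^ r * (μ ^ 2 * Real.exp (2 * i)) :=
          mul_le_mul_of_nonneg_left (hB.trans hpow) (by positivity)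
      _ = _ := by rw [← mul_assoc, h4]
  have hδi : ((t : ℝ) / i) ^ (2 * i) * δ ^ (2 * i) = 1 := by
    rw [← mul_pow, hδ]
    have : (t : ℝ) / i * (i / t) = 1 := by field_simp
    rw [this, one_pow]
  calc _ = ((t : ℝ) / i) ^ (2 * i) * (δ ^ (2 * i) *
        ∑ S ∈ (univ : Finset (Finset (Fin r))).filter (fun S => S.card = 2 * i), coef f S ^ 2) := by
        rw [← mul_assoc, hδi, one_mul]
    _ ≤ _ := mul_le_mul_of_nonneg_left hfin (by positivity)

lemma geom_le (t : ℕ) : ∑ i ∈ Icc 1 t, ((1 : ℝ) / 32) ^ i ≤ 1 / 31 * (1 - (1 / 32) ^ t) := by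
  induction t with
  | zero => simp
  | succ t ih =>
    rw [Finset.sum_Icc_succ_top (by omega), pow_succ]
    have : (0 : ℝ) < (1 / 32) ^ t := by positivity
    nlinarith

lemma low {t r : ℕ} (hr : r = 1024 * t ^ 2) (ht : 1 ≤ t) (U : Finset (Cube r)) (f : Cube r → ℝ)
    (hf1 : ∀ x ∈ U, |f x| = 1) (hf0 : ∀ x, x ∉ U → f x = 0)
    (hU : Real.exp (-(t : ℝ)) * 2 ^ r ≤ U.card) :
    ∑ S ∈ (univ : Finset (Finset (Fin r))).filter
      (fun S => 0 < S.card ∧ 2 * S.card ≤ r), |Kr S| * coef f S ^ 2 ≤
      (Zs r).card * U.card ^ 2 / 4 := by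
  have ht0 : (0 : ℝ) < t := by exact_mod_cast ht
  have ht1 : (1 : ℝ) ≤ t := by exact_mod_cast ht
  set Z : ℝ := ((Zs r).card : ℝ) with hZ
  have hZ0 : 0 ≤ Z := Nat.cast_nonneg _
  have hrt : (r : ℝ) = 1024 * t ^ 2 := by rw [hr]; push_cast; ring
  -- pointwise bound
  have hpt : ∀ S : Finset (Fin r), 0 < S.card → 2 * S.card ≤ r →
      |Kr S| ≤ ∑ i ∈ Icc 1 t, (if S.card = 2 * i then Z * (4 * i / r) ^ i else 0) +
        Z * (1 / 256) ^ t := by
    intro S h0 h2
    have hnn : ∀ i ∈ Icc 1 t, (0 : ℝ) ≤ (if S.card = 2 * i then Z * (4 * i / r) ^ i else 0) := by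
      intro i _
      split_ifs
      · positivity
      · exact le_rfl
    have htail : (0 : ℝ) ≤ Z * (1 / 256) ^ t := by positivity
    rw [Kr_eq_kap]
    rcases Nat.even_or_odd' S.card with ⟨i, hi | hi⟩
    · rcases le_or_gt i t with hit | hit
      · have hmem : i ∈ Icc 1 t := Finset.mem_Icc.2 ⟨by omega, hit⟩
        have h3 := Finset.single_le_sum hnn hmem
        rw [if_pos hi] at h3
        have hk : kap r S.card = kap r (2 * i) := by rw [hi]
        rw [hk]
        have h4 := kap_bound r i (by omega)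
        rw [← hZ] at h4
        linarith
      · have hk : kap r S.card = kap r (2 * i) := by rw [hi]
        rw [hk]
        have h4 := kap_tail r t i hit.le (by omega)
        rw [← hZ] at h4
        have h5 : (4 * (t : ℝ) / r) ^ t ≤ (1 / 256) ^ t := by
          apply pow_le_pow_left₀ (by positivity)
          rw [hrt, div_le_iff₀ (by positivity)]
          nlinarith
        have h6 : Z * (4 * (t : ℝ) / r) ^ t ≤ Z * (1 / 256) ^ t := mul_le_mul_of_nonneg_left h5 hZ0
        have h7 := Finset.sum_nonneg hnn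
        linarith
    · have hk : kap r S.card = 0 := by rw [hi]; exact kap_odd r i (by omega)
      rw [hk, abs_zero]
      exact add_nonneg (Finset.sum_nonneg hnn) htail
  have hstep : ∑ S ∈ (univ : Finset (Finset (Fin r))).filter
      (fun S => 0 < S.card ∧ 2 * S.card ≤ r), |Kr S| * coef f S ^ 2 ≤
      ∑ S : Finset (Fin r), (∑ i ∈ Icc 1 t, (if S.card = 2 * i then Z * (4 * i / r) ^ i else 0) +
        Z * (1 / 256) ^ t) * coef f S ^ 2 := by
    calc _ ≤ ∑ S ∈ (univ : Finset (Finset (Fin r))).filter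
            (fun S => 0 < S.card ∧ 2 * S.card ≤ r),
            (∑ i ∈ Icc 1 t, (if S.card = 2 * i then Z * (4 * i / r) ^ i else 0) +
            Z * (1 / 256) ^ t) * coef f S ^ 2 := by
          apply Finset.sum_le_sum
          intro S hS
          rw [Finset.mem_filter] at hS
          exact mul_le_mul_of_nonneg_right (hpt S hS.2.1 hS.2.2) (sq_nonneg _)
      _ ≤ _ := by
          apply Finset.sum_le_sum_of_subset_of_nonneg (Finset.subset_univ _)
          intro S _ _
          apply mul_nonneg _ (sq_nonneg _)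
          apply add_nonneg _ (by positivity)
          apply Finset.sum_nonneg
          intro i _
          split_ifs
          · positivity
          · exact le_rfl
  refine hstep.trans ?_
  have hsplit : ∑ S : Finset (Fin r), (∑ i ∈ Icc 1 t, (if S.card = 2 * i then Z * (4 * i / r) ^ i else 0) +
        Z * (1 / 256) ^ t) * coef f S ^ 2 =
      ∑ i ∈ Icc 1 t, Z * (4 * i / r) ^ i *
        ∑ S ∈ (univ : Finset (Finset (Fin r))).filter (fun S => S.card = 2 * i), coef f S ^ 2 +
      Z * (1 / 256) ^ t * ∑ S : Finset (Fin r), coef f S ^ 2 := by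
    simp_rw [add_mul]
    rw [Finset.sum_add_distrib]
    congr 1
    · simp_rw [Finset.sum_mul]
      rw [Finset.sum_comm]
      refine Finset.sum_congr rfl fun i _ => ?_
      rw [Finset.sum_filter, Finset.mul_sum]
      refine Finset.sum_congr rfl fun S _ => ?_
      split_ifs <;> ring
    · rw [Finset.mul_sum]
  rw [hsplit]
  -- first part
  have h1 : ∑ i ∈ Icc 1 t, Z * (4 * i / r) ^ i *
        ∑ S ∈ (univ : Finset (Finset (Fin r))).filter (fun S => S.card = 2 * i), coef f S ^ 2 ≤
      Z * U.card ^ 2 * (1 / 16) := by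
    have h2 : ∀ i ∈ Icc 1 t, Z * (4 * i / r) ^ i *
        ∑ S ∈ (univ : Finset (Finset (Fin r))).filter (fun S => S.card = 2 * i), coef f S ^ 2 ≤
        Z * U.card ^ 2 * (1 / 32) ^ i := by
      intro i hi
      rw [Finset.mem_Icc] at hi
      have hi0 : (0 : ℝ) < i := by exact_mod_cast hi.1
      have hi1 : (1 : ℝ) ≤ i := by exact_mod_cast hi.1
      have hl := level ht U f hf1 hf0 hU i hi.1 hi.2
      calc _ ≤ Z * (4 * i / r) ^ i * (((t : ℝ) / i) ^ (2 * i) * (U.card ^ 2 * Real.exp (2 * i))) :=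
            mul_le_mul_of_nonneg_left hl (by positivity)
        _ = Z * U.card ^ 2 * ((4 * i / r) * ((t : ℝ) / i) ^ 2 * Real.exp 2) ^ i := by
            rw [mul_pow, mul_pow, ← pow_mul, ← Real.exp_nat_mul]
            have : (i : ℝ) * 2 = 2 * i := by ring
            rw [this]
            ring
        _ ≤ Z * U.card ^ 2 * (1 / 32) ^ i := by
            apply mul_le_mul_of_nonneg_left _ (by positivity)
            apply pow_le_pow_left₀ (by positivity)
            have he := exp_two_lt
            have hq : (4 * (i : ℝ) / r) * ((t : ℝ) / i) ^ 2 = 1 / (256 * i) := by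
              rw [hrt]; field_simp; norm_num
            rw [hq, div_mul_eq_mul_div, one_mul, div_le_iff₀ (by positivity)]
            nlinarith
    calc _ ≤ ∑ i ∈ Icc 1 t, Z * U.card ^ 2 * (1 / 32) ^ i := Finset.sum_le_sum h2
      _ = Z * U.card ^ 2 * ∑ i ∈ Icc 1 t, (1 / 32) ^ i := by rw [Finset.mul_sum]
      _ ≤ Z * U.card ^ 2 * (1 / 16) := by
          apply mul_le_mul_of_nonneg_left _ (by positivity)
          have := geom_le t
          have h3 : (0 : ℝ) < (1 / 32) ^ t := by positivity
          linarith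
  have h2 : Z * (1 / 256) ^ t * ∑ S : Finset (Fin r), coef f S ^ 2 ≤ Z * U.card ^ 2 * (1 / 8) := by
    rw [parseval]
    have hs : ∑ x, f x ^ 2 = U.card := by
      rw [← Finset.sum_subset (Finset.subset_univ U)]
      · rw [Finset.sum_congr rfl (g := fun _ => (1 : ℝ))]
        · simp
        · intro x hx; rw [← sq_abs, hf1 x hx, one_pow]
      · intro x _ hx
        rw [hf0 x hx]; norm_num
    rw [hs]
    have h3 : (1 / 256 : ℝ) ^ t * 8 ≤ Real.exp (-(t : ℝ)) := by
      have ha : (1 / 256 : ℝ) ^ t * 8 ≤ (1 / 32) ^ t := by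
        have : (1 / 256 : ℝ) ^ t = (1 / 32) ^ t * (1 / 8) ^ t := by rw [← mul_pow]; norm_num
        rw [this, mul_assoc]
        have h8 : (1 / 8 : ℝ) ^ t ≤ (1 / 8) ^ 1 := pow_le_pow_of_le_one (by norm_num) (by norm_num) ht
        have hp : (0 : ℝ) < (1 / 32) ^ t := by positivity
        nlinarith
      have hb : (1 / 32 : ℝ) ^ t ≤ Real.exp (-(t : ℝ)) := by
        have : Real.exp (-(t : ℝ)) = (Real.exp (-1)) ^ t := by
          rw [← Real.exp_nat_mul]; congr 1; ring
        rw [this]
        apply pow_le_pow_left₀ (by norm_num)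
        rw [Real.exp_neg, one_div]
        apply inv_anti₀ (Real.exp_pos 1)
        linarith [Real.exp_one_lt_d9]
      exact ha.trans hb
    have h4 : (1 / 256 : ℝ) ^ t * 8 * 2 ^ r ≤ U.card :=
      (mul_le_mul_of_nonneg_right h3 (by positivity)).trans hU
    have hc : (0 : ℝ) ≤ U.card := Nat.cast_nonneg _
    calc Z * (1 / 256) ^ t * (2 ^ r * (U.card : ℝ)) = Z * U.card * ((1 / 256 : ℝ) ^ t * 2 ^ r) := by ring
      _ ≤ Z * U.card * (U.card / 8) := by
          apply mul_le_mul_of_nonneg_left _ (by positivity)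
          linarith
      _ = _ := by ring
  have h5 : 0 ≤ Z * (U.card : ℝ) ^ 2 := by positivity
  linarith

/-- supersaturation -/
theorem super {t r : ℕ} (hr : r = 1024 * t ^ 2) (ht : 1 ≤ t) (U : Finset (Cube r))
    (hU : Real.exp (-(t : ℝ)) * 2 ^ r ≤ U.card) :
    ((Zs r).card : ℝ) * U.card ^ 2 ≤ 2 * 2 ^ r * NU U := by
  have h4r : 4 ∣ r := ⟨256 * t ^ 2, by rw [hr]; ring⟩
  have hr0 : 0 < r := by rw [hr]; positivity
  have hN := NU_eq U
  set f := ind U with hf
  have hf1 : ∀ x ∈ U, |f x| = 1 := by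
    intro x hx; rw [hf, ind, if_pos hx, abs_one]
  have hf0 : ∀ x, x ∉ U → f x = 0 := by
    intro x hx; rw [hf, ind, if_neg hx]
  set g : Cube r → ℝ := fun x => f x * chi univ x with hg
  have habs : ∀ x : Cube r, |chi univ x| = 1 := by
    intro x
    unfold chi
    rw [Finset.abs_prod]
    apply Finset.prod_eq_one
    intro i _
    cases x i <;> norm_num [sg]
  have hg1 : ∀ x ∈ U, |g x| = 1 := by
    intro x hx; rw [hg]; simp only; rw [abs_mul, hf1 x hx, habs, one_mul]
  have hg0 : ∀ x, x ∉ U → g x = 0 := by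
    intro x hx; rw [hg]; simp only; rw [hf0 x hx, zero_mul]
  have hA := low hr ht U f hf1 hf0 hU
  have hB := low hr ht U g hg1 hg0 hU
  have hgc : ∀ S : Finset (Fin r), coef g S = coef f Sᶜ := by
    intro S
    unfold coef
    refine Finset.sum_congr rfl fun x _ => ?_
    rw [chi_compl, hg]
    ring
  have hBs : ∑ S ∈ (univ : Finset (Finset (Fin r))).filter
      (fun S => 0 < Sᶜ.card ∧ 2 * Sᶜ.card ≤ r), |Kr S| * coef f S ^ 2 ≤
      (Zs r).card * U.card ^ 2 / 4 := by
    refine le_trans (le_of_eq ?_) hB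
    refine Finset.sum_bij' (fun S _ => Sᶜ) (fun S _ => Sᶜ) ?_ ?_ ?_ ?_ ?_
    · intro S hS
      rw [Finset.mem_filter] at hS ⊢
      exact ⟨Finset.mem_univ _, hS.2⟩
    · intro S hS
      rw [Finset.mem_filter] at hS ⊢
      rw [compl_compl]
      exact ⟨Finset.mem_univ _, hS.2⟩
    · intro S _; exact compl_compl S
    · intro S _; exact compl_compl S
    · intro S _
      rw [hgc, compl_compl, Kr_compl h4r]
  have hmain : (Zs r).card * (U.card : ℝ) ^ 2 -
      ∑ S ∈ (univ : Finset (Finset (Fin r))).filter (fun S => 0 < S.card ∧ 2 * S.card ≤ r),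
        |Kr S| * coef f S ^ 2 -
      ∑ S ∈ (univ : Finset (Finset (Fin r))).filter
        (fun S => 0 < Sᶜ.card ∧ 2 * Sᶜ.card ≤ r), |Kr S| * coef f S ^ 2 ≤
      ∑ S : Finset (Fin r), Kr S * coef f S ^ 2 := by
    have h0 : (Zs r).card * (U.card : ℝ) ^ 2 = ∑ S : Finset (Fin r), if S = ∅ then Kr S * coef f S ^ 2 else 0 := by
      rw [Finset.sum_ite_eq' univ (∅ : Finset (Fin r)) (fun S => Kr S * coef f S ^ 2),
        if_pos (Finset.mem_univ _)]
      have h1 : Kr (∅ : Finset (Fin r)) = (Zs r).card := by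
        rw [Kr_eq_kap, Finset.card_empty, kap_zero]
      have h2 : coef f (∅ : Finset (Fin r)) = U.card := by
        unfold coef chi
        rw [hf]
        unfold ind
        simp
      rw [h1, h2]
    rw [h0, Finset.sum_filter, Finset.sum_filter, ← Finset.sum_sub_distrib, ← Finset.sum_sub_distrib]
    apply Finset.sum_le_sum
    intro S _
    have habs1 : -(|Kr S| * coef f S ^ 2) ≤ Kr S * coef f S ^ 2 := by
      have := neg_abs_le (Kr S)
      nlinarith [sq_nonneg (coef f S)]
    have hnn : 0 ≤ |Kr S| * coef f S ^ 2 := by positivity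
    by_cases hS0 : S = ∅
    · subst hS0
      have e1 : ¬ (0 < (∅ : Finset (Fin r)).card ∧ 2 * (∅ : Finset (Fin r)).card ≤ r) := by simp
      have e2 : ¬ (0 < ((∅ : Finset (Fin r))ᶜ).card ∧ 2 * ((∅ : Finset (Fin r))ᶜ).card ≤ r) := by
        simp only [Finset.compl_empty, Finset.card_univ, Fintype.card_fin]
        omega
      rw [if_pos rfl, if_neg e1, if_neg e2]
      simp
    · rw [if_neg hS0]
      have hc : Sᶜ.card = r - S.card := by rw [Finset.card_compl, Fintype.card_fin]
      have hSle : S.card ≤ r := by simpa using Finset.card_le_univ S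
      have hpos : 0 < S.card := Finset.card_pos.2 (Finset.nonempty_iff_ne_empty.2 hS0)
      by_cases hSu : S = univ
      · have hK : 0 ≤ Kr S := by
          have : Kr S = Kr (∅ : Finset (Fin r)) := by
            rw [← Kr_compl h4r S, hSu, Finset.compl_univ]
          rw [this, Kr_eq_kap, Finset.card_empty, kap_zero]
          exact Nat.cast_nonneg _
        have : 0 ≤ Kr S * coef f S ^ 2 := mul_nonneg hK (sq_nonneg _)
        split_ifs <;> linarith
      · have hlt : S.card < r := by
          rcases lt_or_eq_of_le hSle with h | h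
          · exact h
          · exfalso
            apply hSu
            exact (Finset.card_eq_iff_eq_univ S).1 (by rw [h, Fintype.card_fin])
        rcases le_or_gt (2 * S.card) r with h | h
        · rw [if_pos ⟨hpos, h⟩]
          split_ifs <;> linarith
        · have : 0 < Sᶜ.card ∧ 2 * Sᶜ.card ≤ r := by rw [hc]; omega
          rw [if_pos this]
          split_ifs <;> linarith
  rw [← hN] at hmain
  linarith

end Pool.Agent.H40KO
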