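import Mathlib

set_option autoImplicit false

/-!
# The two-point inequality
-/

namespace Pool.Agent.H40KO

open Set Real

lemma aux_deriv (q y : ℝ) (hq0 : 0 ≤ q) (hq1 : q ≤ 1) (hy0 : 0 ≤ y) (hy1 : y ≤ 1) :
    2 * q * y ≤ (1 + y) ^ q - (1 - y) ^ q := by
  have hmono : MonotoneOn (fun y : ℝ => (1 + y) ^ q - (1 - y) ^ q - 2 * q * y) (Icc 0 1) := by
    apply monotoneOn_of_deriv_nonneg (convex_Icc 0 1)
    · apply ContinuousOn.sub
      · apply ContinuousOn.sub
        · apply ContinuousOn.rpow_const (by fun_prop)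
          intro x _; exact Or.inr hq0
        · apply ContinuousOn.rpow_const (by fun_prop)
          intro x _; exact Or.inr hq0
      · fun_prop
    · intro x hx
      rw [interior_Icc] at hx
      apply DifferentiableAt.differentiableWithinAt
      have h1 : (1 + x) ≠ 0 := by linarith [hx.1]
      have h2 : (1 - x) ≠ 0 := by linarith [hx.2]
      apply DifferentiableAt.sub
      · apply DifferentiableAt.sub
        · exact DifferentiableAt.rpow_const (by fun_prop) (Or.inl h1)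
        · exact DifferentiableAt.rpow_const (by fun_prop) (Or.inl h2)
      · fun_prop
    · intro x hx
      rw [interior_Icc] at hx
      have h1 : 0 < 1 + x := by linarith [hx.1]
      have h2 : 0 < 1 - x := by linarith [hx.2]
      have hd1 : HasDerivAt (fun y : ℝ => (1 + y) ^ q) (1 * q * (1 + x) ^ (q - 1)) x :=
        HasDerivAt.rpow_const ((hasDerivAt_id x).const_add 1) (Or.inl h1.ne')
      have hd2 : HasDerivAt (fun y : ℝ => (1 - y) ^ q) ((-1) * q * (1 - x) ^ (q - 1)) x :=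
        HasDerivAt.rpow_const ((hasDerivAt_id x).const_sub 1) (Or.inl h2.ne')
      have hd3 : HasDerivAt (fun y : ℝ => 2 * q * y) (2 * q) x := by
        simpa using (hasDerivAt_id x).const_mul (2 * q)
      have hd := ((hd1.sub hd2).sub hd3).deriv
      have heq : deriv (fun y : ℝ => (1 + y) ^ q - (1 - y) ^ q - 2 * q * y) x =
          1 * q * (1 + x) ^ (q - 1) - (-1) * q * (1 - x) ^ (q - 1) - 2 * q := by
        exact hd
      rw [heq]
      have ha : 0 < (1 + x) ^ (q - 1) := Real.rpow_pos_of_pos h1 _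
      have hb : 0 < (1 - x) ^ (q - 1) := Real.rpow_pos_of_pos h2 _
      have hab : 1 ≤ (1 + x) ^ (q - 1) * (1 - x) ^ (q - 1) := by
        rw [← Real.mul_rpow h1.le h2.le]
        have h3 : (1 + x) * (1 - x) ≤ 1 := by nlinarith [sq_nonneg x]
        have h4 : 0 < (1 + x) * (1 - x) := mul_pos h1 h2
        exact Real.one_le_rpow_of_pos_of_le_one_of_nonpos h4 h3 (by linarith)
      have hsum : 2 ≤ (1 + x) ^ (q - 1) + (1 - x) ^ (q - 1) := by
        nlinarith [sq_nonneg ((1 + x) ^ (q - 1) - (1 - x) ^ (q - 1)),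
          sq_nonneg ((1 + x) ^ (q - 1) + (1 - x) ^ (q - 1))]
      nlinarith
  have := hmono (left_mem_Icc.2 zero_le_one) ⟨hy0, hy1⟩ hy0
  simp only [add_zero, sub_zero, Real.one_rpow, mul_zero, sub_self] at this
  linarith

lemma key_S (p y : ℝ) (hp1 : 1 ≤ p) (hp2 : p ≤ 2) (hy0 : 0 ≤ y) (hy1 : y ≤ 1) :
    1 + p * (p - 1) / 2 * y ^ 2 ≤ ((1 + y) ^ p + (1 - y) ^ p) / 2 := by
  have hmono : MonotoneOn (fun y : ℝ => (1 + y) ^ p + (1 - y) ^ p - p * (p - 1) * y ^ 2)
      (Icc 0 1) := by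
    have hp0 : 0 ≤ p := by linarith
    apply monotoneOn_of_deriv_nonneg (convex_Icc 0 1)
    · apply ContinuousOn.sub
      · apply ContinuousOn.add
        · apply ContinuousOn.rpow_const (by fun_prop)
          intro x _; exact Or.inr hp0
        · apply ContinuousOn.rpow_const (by fun_prop)
          intro x _; exact Or.inr hp0
      · fun_prop
    · intro x hx
      apply DifferentiableAt.differentiableWithinAt
      apply DifferentiableAt.sub
      · apply DifferentiableAt.add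
        · exact DifferentiableAt.rpow_const (by fun_prop) (Or.inr hp1)
        · exact DifferentiableAt.rpow_const (by fun_prop) (Or.inr hp1)
      · fun_prop
    · intro x hx
      rw [interior_Icc] at hx
      have hd1 : HasDerivAt (fun y : ℝ => (1 + y) ^ p) (1 * p * (1 + x) ^ (p - 1)) x :=
        HasDerivAt.rpow_const ((hasDerivAt_id x).const_add 1) (Or.inr hp1)
      have hd2 : HasDerivAt (fun y : ℝ => (1 - y) ^ p) ((-1) * p * (1 - x) ^ (p - 1)) x :=
        HasDerivAt.rpow_const ((hasDerivAt_id x).const_sub 1) (Or.inr hp1)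
      have hd3 : HasDerivAt (fun y : ℝ => p * (p - 1) * y ^ 2) (p * (p - 1) * (2 * x)) x := by
        simpa using (hasDerivAt_pow 2 x).const_mul (p * (p - 1))
      have hd := ((hd1.add hd2).sub hd3).deriv
      have heq : deriv (fun y : ℝ => (1 + y) ^ p + (1 - y) ^ p - p * (p - 1) * y ^ 2) x =
          1 * p * (1 + x) ^ (p - 1) + (-1) * p * (1 - x) ^ (p - 1) - p * (p - 1) * (2 * x) := by
        exact hd
      rw [heq]
      have h := aux_deriv (p - 1) x (by linarith) (by linarith) hx.1.le hx.2.le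
      nlinarith
  have := hmono (left_mem_Icc.2 zero_le_one) ⟨hy0, hy1⟩ hy0
  simp only [add_zero, sub_zero, Real.one_rpow] at this
  norm_num at this
  linarith

/-- normalised two-point inequality -/
lemma two_point_aux (δ y : ℝ) (h0 : 0 ≤ δ) (h1 : δ ≤ 1) (hy0 : 0 ≤ y) (hy1 : y ≤ 1) :
    1 + δ * y ^ 2 ≤ (((1 + y) ^ (1 + δ) + (1 - y) ^ (1 + δ)) / 2) ^ (2 / (1 + δ)) := by
  have hp : 0 < 1 + δ := by linarith
  have hA : (1 + δ * y ^ 2) ^ ((1 + δ) / 2) ≤ 1 + (1 + δ) / 2 * (δ * y ^ 2) :=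
    rpow_one_add_le_one_add_mul_self (by nlinarith [mul_nonneg h0 (sq_nonneg y)]) (by linarith) (by linarith)
  have hB := key_S (1 + δ) y (by linarith) (by linarith) hy0 hy1
  have hC : (1 + δ * y ^ 2) ^ ((1 + δ) / 2) ≤ ((1 + y) ^ (1 + δ) + (1 - y) ^ (1 + δ)) / 2 := by
    refine hA.trans (le_trans (le_of_eq ?_) hB)
    ring
  have hb : (0 : ℝ) ≤ 1 + δ * y ^ 2 := by positivity
  calc 1 + δ * y ^ 2 = ((1 + δ * y ^ 2) ^ ((1 + δ) / 2)) ^ (2 / (1 + δ)) := by
        rw [← Real.rpow_mul hb]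
        have : (1 + δ) / 2 * (2 / (1 + δ)) = 1 := by field_simp
        rw [this, Real.rpow_one]
    _ ≤ _ := Real.rpow_le_rpow (Real.rpow_nonneg hb _) hC (by positivity)

lemma two_point_le (δ a b : ℝ) (h0 : 0 ≤ δ) (h1 : δ ≤ 1) (hb : 0 ≤ b) (hab : b ≤ a) :
    ((1 + δ) * (a ^ 2 + b ^ 2) + 2 * (1 - δ) * (a * b)) / 4 ≤
      ((a ^ (1 + δ) + b ^ (1 + δ)) / 2) ^ (2 / (1 + δ)) := by
  have ha : 0 ≤ a := hb.trans hab
  have hp : 0 < 1 + δ := by linarith
  rcases eq_or_lt_of_le ha with h | hpos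
  · have hb' : b = 0 := le_antisymm (by rw [h]; exact hab) hb
    rw [← h, hb']
    have : (0:ℝ) ≤ (((0:ℝ) ^ (1 + δ) + 0 ^ (1 + δ)) / 2) ^ (2 / (1 + δ)) := by positivity
    simpa using this
  · have hM : 0 < (a + b) / 2 := by linarith
    set M := (a + b) / 2 with hMdef
    set y := (a - b) / (a + b) with hydef
    have hab' : 0 < a + b := by linarith
    have hy0 : 0 ≤ y := div_nonneg (by linarith) hab'.le
    have hy1 : y ≤ 1 := by rw [hydef, div_le_one hab']; linarith
    have hae : a = M * (1 + y) := by rw [hMdef, hydef]; field_simp; ring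
    have hbe : b = M * (1 - y) := by rw [hMdef, hydef]; field_simp; ring
    have hL : ((1 + δ) * (a ^ 2 + b ^ 2) + 2 * (1 - δ) * (a * b)) / 4 =
        M ^ 2 * (1 + δ * y ^ 2) := by
      rw [hae, hbe]; ring
    have hR : ((a ^ (1 + δ) + b ^ (1 + δ)) / 2) ^ (2 / (1 + δ)) =
        M ^ 2 * (((1 + y) ^ (1 + δ) + (1 - y) ^ (1 + δ)) / 2) ^ (2 / (1 + δ)) := by
      have h1y : 0 ≤ 1 + y := by linarith
      have h1y' : 0 ≤ 1 - y := by linarith
      rw [hae, hbe, Real.mul_rpow hM.le h1y, Real.mul_rpow hM.le h1y', ← mul_add, mul_div_assoc,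
        Real.mul_rpow (Real.rpow_nonneg hM.le _) (by positivity), ← Real.rpow_mul hM.le]
      have : (1 + δ) * (2 / (1 + δ)) = (2 : ℕ) := by push_cast; field_simp
      rw [this, Real.rpow_natCast]
    rw [hL, hR]
    exact mul_le_mul_of_nonneg_left (two_point_aux δ y h0 h1 hy0 hy1) (sq_nonneg M)

theorem two_point (δ a b : ℝ) (h0 : 0 ≤ δ) (h1 : δ ≤ 1) (ha : 0 ≤ a) (hb : 0 ≤ b) :
    ((1 + δ) * (a ^ 2 + b ^ 2) + 2 * (1 - δ) * (a * b)) / 4 ≤
      ((a ^ (1 + δ) + b ^ (1 + δ)) / 2) ^ (2 / (1 + δ)) := by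
  rcases le_total b a with h | h
  · exact two_point_le δ a b h0 h1 hb h
  · have := two_point_le δ b a h0 h1 ha h
    rw [add_comm (b ^ 2), mul_comm b a, add_comm (b ^ (1 + δ))] at this
    exact this

end Pool.Agent.H40KO
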