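import Pool.Agent.H40.KO.Count
import Pool.Agent.H40.KO.Sample

set_option autoImplicit false

/-!
# The vectors
-/

namespace Pool.Agent.H40KO

open Finset

/-- coordinates of the vector of a point of the power of the cube -/
noncomputable def co {r l : ℕ} (x : Fin l → Cube r) (α : Fin l → Fin r × Fin r) : ℝ :=
  ∏ i, (sg (x i (α i).1) * sg (x i (α i).2) / r)

/-- coordinates of the common direction -/
noncomputable def dir {r l : ℕ} (α : Fin l → Fin r × Fin r) : ℝ :=
  ∏ i, (if (α i).1 = (α i).2 then 1 / √(r : ℝ) else 0)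

lemma sum_prod_pi {l : ℕ} {A : Type} [Fintype A] (F : Fin l → A → ℝ) :
    ∑ α : Fin l → A, ∏ i, F i (α i) = ∏ i, ∑ a, F i a := by
  classical
  rw [Finset.prod_univ_sum, Fintype.piFinset_univ]

lemma co_inner {r l : ℕ} (x y : Fin l → Cube r) :
    ∑ α, co x α * co y α = ∏ i, ((∑ j, sg (x i j) * sg (y i j)) / r) ^ 2 := by
  have : ∀ α : Fin l → Fin r × Fin r, co x α * co y α =
      ∏ i, ((sg (x i (α i).1) * sg (x i (α i).2) / r) * (sg (y i (α i).1) * sg (y i (α i).2) / r)) := by
    intro α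
    unfold co
    rw [← Finset.prod_mul_distrib]
  simp_rw [this]
  rw [sum_prod_pi (fun i (a : Fin r × Fin r) =>
    (sg (x i a.1) * sg (x i a.2) / r) * (sg (y i a.1) * sg (y i a.2) / r))]
  refine Finset.prod_congr rfl fun i _ => ?_
  rw [Fintype.sum_prod_type, div_pow, sq, Finset.sum_mul_sum, Finset.sum_div]
  refine Finset.sum_congr rfl fun j _ => ?_
  rw [Finset.sum_div]
  refine Finset.sum_congr rfl fun j' _ => ?_
  ring

lemma co_self {r l : ℕ} (hr : 0 < r) (x : Fin l → Cube r) : ∑ α, co x α * co x α = 1 := by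
  rw [co_inner]
  apply Finset.prod_eq_one
  intro i _
  simp_rw [sg_mul_self]
  have : (r : ℝ) ≠ 0 := by positivity
  simp [this]

lemma co_orth {r l : ℕ} (x y : Fin l → Cube r) (h : ∃ i, Orth (x i) (y i)) :
    ∑ α, co x α * co y α = 0 := by
  rw [co_inner]
  obtain ⟨i, hi⟩ := h
  apply Finset.prod_eq_zero (Finset.mem_univ i)
  unfold Orth at hi
  rw [hi]; simp

lemma dir_self {r l : ℕ} (hr : 0 < r) : ∑ α : Fin l → Fin r × Fin r, dir α * dir α = 1 := by
  have : ∀ α : Fin l → Fin r × Fin r, dir α * dir α =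
      ∏ i, ((if (α i).1 = (α i).2 then 1 / √(r : ℝ) else 0) *
        (if (α i).1 = (α i).2 then 1 / √(r : ℝ) else 0)) := by
    intro α
    unfold dir
    rw [← Finset.prod_mul_distrib]
  simp_rw [this]
  rw [sum_prod_pi (fun _ (a : Fin r × Fin r) =>
    (if a.1 = a.2 then 1 / √(r : ℝ) else 0) * (if a.1 = a.2 then 1 / √(r : ℝ) else 0))]
  apply Finset.prod_eq_one
  intro i _
  rw [Fintype.sum_prod_type]
  have h0 : (0 : ℝ) < r := by exact_mod_cast hr
  have h1 : 1 / √(r : ℝ) * (1 / √(r : ℝ)) = 1 / r := by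
    rw [div_mul_div_comm, one_mul, Real.mul_self_sqrt h0.le]
  have h2 : ∀ a b : Fin r, ((if a = b then 1 / √(r : ℝ) else 0) * (if a = b then 1 / √(r : ℝ) else 0)) =
      if a = b then 1 / (r : ℝ) else 0 := by
    intro a b
    split_ifs
    · exact h1
    · simp
  simp only [h2]
  simp
  field_simp

lemma dir_co {r l : ℕ} (hr : 0 < r) (x : Fin l → Cube r) :
    ∑ α, co x α * dir α = (1 / √(r : ℝ)) ^ l := by
  have : ∀ α : Fin l → Fin r × Fin r, co x α * dir α =
      ∏ i, ((sg (x i (α i).1) * sg (x i (α i).2) / r) *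
        (if (α i).1 = (α i).2 then 1 / √(r : ℝ) else 0)) := by
    intro α
    unfold dir co
    rw [← Finset.prod_mul_distrib]
  simp_rw [this]
  rw [sum_prod_pi (fun i (a : Fin r × Fin r) =>
    (sg (x i a.1) * sg (x i a.2) / r) * (if a.1 = a.2 then 1 / √(r : ℝ) else 0))]
  rw [Finset.prod_congr rfl (g := fun _ => 1 / √(r : ℝ))]
  · simp
  · intro i _
    rw [Fintype.sum_prod_type]
    have h0 : (0 : ℝ) < r := by exact_mod_cast hr
    have h2 : ∀ a b : Fin r, sg (x i a) * sg (x i b) / r * (if a = b then 1 / √(r : ℝ) else 0) =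
        if a = b then 1 / (r : ℝ) * (1 / √(r : ℝ)) else 0 := by
      intro a b
      split_ifs with h
      · subst h; rw [sg_mul_self]
      · simp
    simp only [h2]
    simp
    field_simp

/-- The main construction: if `n ^ k` times the number of bad tuples is small, there are `n`
unit vectors, any `k` of them containing an orthogonal pair, with a large sum. -/
theorem construct {r : ℕ} (hr : 0 < r) (n l k : ℕ)
    (h : n ^ k * (tup (Orth (r := r)) univ k).card ^ l < ((Fintype.card (Cube r)) ^ l) ^ k) :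
    ∃ (d : ℕ) (v : Fin n → EuclideanSpace ℝ (Fin d)), (∀ i, ‖v i‖ = 1) ∧
      (∀ K : Finset (Fin n), K.card = k → ∃ i ∈ K, ∃ j ∈ K, i ≠ j ∧ inner ℝ (v i) (v j) = 0) ∧
      (n : ℝ) * (1 / √(r : ℝ)) ^ l ≤ ‖∑ i, v i‖ := by
  classical
  obtain ⟨ω, hω⟩ := sample (Orth (r := r)) n l k h (Fintype.card_pos)
  let A := Fin l → Fin r × Fin r
  let ε : A ≃ Fin (Fintype.card A) := Fintype.equivFin A
  let v : Fin n → EuclideanSpace ℝ (Fin (Fintype.card A)) :=
    fun j => WithLp.toLp 2 (fun i => co (ω j) (ε.symm i))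
  let u : EuclideanSpace ℝ (Fin (Fintype.card A)) := WithLp.toLp 2 (fun i => dir (ε.symm i))
  have hin : ∀ a b, inner ℝ (v a) (v b) = ∑ α, co (ω a) α * co (ω b) α := by
    intro a b
    rw [← Equiv.sum_comp ε.symm (fun α => co (ω a) α * co (ω b) α)]
    simp only [v, PiLp.inner_apply, RCLike.inner_apply, conj_trivial]
    refine Finset.sum_congr rfl fun i _ => ?_
    ring
  have hinu : ∀ a, inner ℝ (v a) u = (1 / √(r : ℝ)) ^ l := by
    intro a
    rw [← dir_co hr (ω a), ← Equiv.sum_comp ε.symm (fun α => co (ω a) α * dir α)]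
    simp only [v, u, PiLp.inner_apply, RCLike.inner_apply, conj_trivial]
    refine Finset.sum_congr rfl fun i _ => ?_
    ring
  have hu : inner ℝ u u = (1 : ℝ) := by
    rw [← dir_self (l := l) hr, ← Equiv.sum_comp ε.symm (fun α : A => dir α * dir α)]
    simp only [u, PiLp.inner_apply, RCLike.inner_apply, conj_trivial]
  have hun : ‖u‖ = 1 := by
    rw [@norm_eq_sqrt_real_inner, hu, Real.sqrt_one]
  refine ⟨Fintype.card A, v, ?_, ?_, ?_⟩
  · intro i
    rw [@norm_eq_sqrt_real_inner, hin, co_self hr, Real.sqrt_one]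
  · intro K hK
    have e := K.orderEmbOfFin hK
    obtain ⟨a, b, hab, i, hi⟩ := hω (K.orderEmbOfFin hK).toEmbedding
    refine ⟨K.orderEmbOfFin hK a, Finset.orderEmbOfFin_mem K hK a, K.orderEmbOfFin hK b,
      Finset.orderEmbOfFin_mem K hK b, ?_, ?_⟩
    · intro h'
      exact hab ((K.orderEmbOfFin hK).injective h')
    · rw [hin]
      exact co_orth _ _ ⟨i, hi⟩
  · have h1 : inner ℝ (∑ i, v i) u = (n : ℝ) * (1 / √(r : ℝ)) ^ l := by
      rw [sum_inner]
      simp_rw [hinu]
      simp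
    rw [← h1]
    calc inner ℝ (∑ i, v i) u ≤ ‖∑ i, v i‖ * ‖u‖ := real_inner_le_norm _ _
      _ = _ := by rw [hun, mul_one]

end Pool.Agent.H40KO
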